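import Pool.Agent.R932.GR.Art

/-!
# The motivic Sato-Tate conjecture from the fourth moments at one prime
-/

set_option autoImplicit false
set_option linter.unusedSectionVars false
set_option linter.style.haveILetI false

open Matrix Polynomial Filter Topology NumberField IsDedekindDomain
open Pool.Agent.Y142.ZO Pool.Agent.Y142.ZS
open Pool.Agent.R932.PO (JTan IsForm Kind Fits Allows Sys JL det_map_ne IsTate Killed)
open Pool.Agent.R932.EV (SS SC)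
open Pool.Agent.R932.OP

namespace Pool.Agent.R932.GR

noncomputable section

section
variable {K : Type} [Field K] [NumberField K] {ι : Type} [Fintype ι] [DecidableEq ι] {N w : ι → ℕ}
  {S : Set (HeightOneSpectrum (𝓞 K))} {P : ι → HeightOneSpectrum (𝓞 K) → ℚ[X]} {kd : ι → Kind}

/-- **the full joint Lie algebra from the fourth moments** -/
theorem full_of_moments (J : ∀ i, Matrix (Fin (N i)) (Fin (N i)) ℚ)
    (hfit : ∀ i, Fits (kd i) (J i)) (hdet : ∀ i, (J i).det ≠ 0)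
    (ℓ : ℕ) [hℓ : Fact ℓ.Prime] (κ : GK K →* ℚ_[ℓ])
    (hκ : ∀ v ∉ S, (ℓ : 𝓞 K) ∉ v.asIdeal → ∀ σ : GK K, IsFrobenius v σ →
      κ σ⁻¹ = (Ideal.absNorm v.asIdeal : ℚ_[ℓ]))
    (ρ : ∀ (i : ι), GK K →* Matrix (Fin (N i)) (Fin (N i)) ℚ_[ℓ])
    (hρc : ∀ (i : ι), Continuous (ρ i))
    (hmult : ∀ (i : ι) (g : GK K), Sim (JL J ℓ i) (ρ i g) (κ g ^ w i))
    (hfrob : ∀ (i : ι), ∀ v ∉ S, (ℓ : 𝓞 K) ∉ v.asIdeal → ∀ σ : GK K,
      IsFrobenius v σ → (ρ i σ⁻¹).charpoly = (P i v).map (algebraMap ℚ ℚ_[ℓ]))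
    (hT4 : ∀ a : Fin 4 → ι, a 0 = a 1 → a 2 = a 3 → ∀ j, ∑ t, w (a t) = 2 * j → ∀ T,
      IsTate ρ κ a j T → Killed (JL J ℓ) a T)
    (hS2 : ∀ i, Semi2 ℓ (ρ i))
    (hns : ∀ i, ∃ v ∉ S, (ℓ : 𝓞 K) ∉ v.asIdeal ∧ ∀ n : ℕ, 0 < n →
      ∃ x : ℂ, aeval x (P i v) = 0 ∧
        x ^ (2 * n) ≠ (((Ideal.absNorm v.asIdeal : ℚ) ^ w i : ℚ) : ℂ) ^ n) :
    ∀ X, (∀ i, SpLie (JL J ℓ i) (X i)) → JTan ℓ ρ X := by
  have hdetL : ∀ (i : ι), (JL J ℓ i).det ≠ 0 := fun i =>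
    det_map_ne (algebraMap ℚ ℚ_[ℓ]) (hdet i)
  have hfitL : ∀ (i : ι), Fits (kd i) (JL J ℓ i) := fun i =>
    (hfit i).map (algebraMap ℚ ℚ_[ℓ])
  have hform : ∀ (i : ι), IsForm (JL J ℓ i) := fun i => (hfitL i).isForm (hdetL i)
  have hsim : ∀ (i : ι) (g : GK K), ∃ c, Sim (JL J ℓ i) (ρ i g) c :=
    fun i g => ⟨_, hmult i g⟩
  have hone : ∀ i X, SpLie (JL J ℓ i) X → IsTangent ℓ (ρ i) X := by
    intro i
    obtain ⟨v, hvS, hvℓ, hnv⟩ := hns i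
    obtain ⟨σ, hσ⟩ := Pool.Agent.W401.Frob.exists_frob v
    have hN2 : 2 ≤ N i := by
      rcases (hfitL i).symm with h | h
      · rcases (hform i).1 with h' | h'
        · have := h'.2
          omega
        · obtain ⟨k, hk⟩ := even_of_alt h' (hdetL i)
          have := (hfit i).pos
          omega
      · obtain ⟨k, hk⟩ := even_of_alt h (hdetL i)
        have := (hfit i).pos
        omega
    have h4 : Tate4 ℓ (ρ i) (JL J ℓ i) := by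
      refine PO.tate4_of (ρ := ρ) (J := JL J ℓ) (κ := κ) (w := w) i (hform i)
        (hfit i).pos (hmult i) fun T hT => ?_
      refine hT4 (fun _ => i) rfl rfl (2 * w i) ?_ T hT
      rw [Finset.sum_const, Finset.card_univ, Fintype.card_fin, smul_eq_mul]
      ring
    obtain ⟨ε, hε, hJε⟩ : ∃ ε : ℚ_[ℓ], (ε = 1 ∨ ε = -1) ∧ (JL J ℓ i)ᵀ = ε • JL J ℓ i := by
      rcases (hfitL i).symm with h | h
      · exact ⟨1, Or.inl rfl, by rw [one_smul]; exact h⟩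
      · exact ⟨-1, Or.inr rfl, by rw [neg_one_smul]; exact h⟩
    refine full_of_tate4 Y708.ZO.t Y497.ZO.log Y497.ZO.pow (hρc i) hN2 hε hJε (hdetL i)
      (hsim i) h4 (hS2 i) (σ₀ := σ⁻¹) fun n c hn => ?_
    have hq : (ρ i σ⁻¹)ᵀ * JL J ℓ i * ρ i σ⁻¹ =
        (((Ideal.absNorm v.asIdeal : ℚ) ^ w i : ℚ) : ℚ_[ℓ]) • JL J ℓ i := by
      have h1 : Sim (JL J ℓ i) (ρ i σ⁻¹) (κ σ⁻¹ ^ w i) := hmult i σ⁻¹
      rw [hκ v hvS hvℓ σ hσ] at h1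
      rw [Rat.cast_pow, Rat.cast_natCast]
      exact h1
    exact nonscalar (hfit i).pos (hdetL i) (hfrob i v hvS hvℓ σ hσ) hq hnv n c hn
  refine PO.joint_full PO.jlie PO.jlift PO.gour (PO.pair PO.jlie PO.jlift) (ρ := ρ)
    (fun i => hρc i) hform hsim hone ?_
  intro i j hij Θ h1 h2
  refine PO.pair_of (ρ := ρ) (J := JL J ℓ) (κ := κ) (w := w) i j hij (hform i)
    (hform j) (hmult i) (hmult j) (fun T hT => ?_) Θ h1 h2
  refine hT4 _ rfl rfl (w i + w j) ?_ T hT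
  rw [Fin.sum_univ_four]
  show w i + w i + w j + w j = 2 * (w i + w j)
  ring

end

section
variable {K : Type} [Field K] [NumberField K] {ι : Type} [Fintype ι] [DecidableEq ι] {N w : ι → ℕ}
  {m : ℕ} {Γ : Type} [Group Γ] [TopologicalSpace Γ] [IsTopologicalGroup Γ] [CompactSpace Γ]
  {S : Set (HeightOneSpectrum (𝓞 K))} {P : ι → HeightOneSpectrum (𝓞 K) → ℚ[X]}
  {kd : ι → Kind} {s : GK K →* Γ}

/-- the motivic Sato-Tate conjecture: the isometries in the Zariski closure of the image are the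
isometries in the motivic group -/
def MSato {ℓ : ℕ} [Fact ℓ.Prime] {Γ : Type} [Group Γ] (J : ∀ i, Matrix (Fin (N i)) (Fin (N i)) ℚ)
    (JA : Matrix (Fin m) (Fin m) ℚ) (Pol : Set (Pa ℚ N m)) (ρ : ∀ i, Γ →* Matrix (Fin (N i)) (Fin (N i)) ℚ_[ℓ])
    (α : Γ →* Matrix (Fin m) (Fin m) ℚ) : Prop :=
  ∀ (x : ∀ i, Matrix (Fin (N i)) (Fin (N i)) (Lc ℓ)) (a : Matrix (Fin m) (Fin m) (Lc ℓ)),
    (∀ i, Sim (up (JL J ℓ) i) (x i) 1) →
    aᵀ * JA.map (algebraMap ℚ (Lc ℓ)) * a = JA.map (algebraMap ℚ (Lc ℓ)) →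
    (ClA ρ α x a ↔ ∀ f ∈ Pol, vala f x a = 0)

/-- **the motivic Sato-Tate conjecture from the fourth moments at one prime** -/
theorem sato_main (hS : S.Finite) (hs : Continuous s)
    (J : ∀ i, Matrix (Fin (N i)) (Fin (N i)) ℚ)
    (hfit : ∀ i, Fits (kd i) (J i)) (hdet : ∀ i, (J i).det ≠ 0) (hw : ∀ i, (J i)ᵀ = J i → w i = 0)
    (JA : Matrix (Fin m) (Fin m) ℚ)
    (α : Γ →* Matrix (Fin m) (Fin m) ℚ) {U : Subgroup Γ} (hU : IsOpen (U : Set Γ))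
    (hUα : ∀ σ ∈ U, α σ = 1)
    (κ : ∀ (ℓ : ℕ) [Fact ℓ.Prime], Γ →* ℚ_[ℓ])
    (hκ : ∀ (ℓ : ℕ) [Fact ℓ.Prime], ∀ v ∉ S, (ℓ : 𝓞 K) ∉ v.asIdeal → ∀ σ : GK K, IsFrobenius v σ →
      κ ℓ (s σ⁻¹) = (Ideal.absNorm v.asIdeal : ℚ_[ℓ]))
    (ρ : ∀ (i : ι) (ℓ : ℕ) [Fact ℓ.Prime], Γ →* Matrix (Fin (N i)) (Fin (N i)) ℚ_[ℓ])
    (hρc : ∀ (i : ι) (ℓ : ℕ) [Fact ℓ.Prime], Continuous (ρ i ℓ))
    (hmult : ∀ (i : ι) (ℓ : ℕ) [Fact ℓ.Prime] (g : Γ),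
      Sim (JL J ℓ i) (ρ i ℓ g) (κ ℓ g ^ w i))
    (hfrob : ∀ (i : ι) (ℓ : ℕ) [Fact ℓ.Prime], ∀ v ∉ S, (ℓ : 𝓞 K) ∉ v.asIdeal → ∀ σ : GK K,
      IsFrobenius v σ → (ρ i ℓ (s σ⁻¹)).charpoly = (P i v).map (algebraMap ℚ ℚ_[ℓ]))
    (Pol : Set (Pa ℚ N m))
    (hgal : ∀ (ℓ : ℕ) [Fact ℓ.Prime] (σ : Γ), ∀ f ∈ Pol,
      vala f (fun i => ρ i ℓ σ) ((α σ).map (algebraMap ℚ ℚ_[ℓ])) = 0)
    (hcomp : ∀ (x : ∀ i, Matrix (Fin (N i)) (Fin (N i)) ℂ) (a : Matrix (Fin m) (Fin m) ℂ),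
      (∀ i, Sim ((J i).map (algebraMap ℚ ℂ)) (x i) 1) →
      aᵀ * JA.map (algebraMap ℚ ℂ) * a = JA.map (algebraMap ℚ ℂ) → (∀ f ∈ Pol, vala f x a = 0) →
      ∃ σ : Γ, a = (α σ).map (algebraMap ℚ ℂ) ∧ ∀ i, (J i)ᵀ = J i → ∀ (ℓ : ℕ) [Fact ℓ.Prime],
        ((x i).det = 1 ↔ (ρ i ℓ σ).det = 1))
    (ℓ₀ : ℕ) [hℓ₀ : Fact ℓ₀.Prime] (hal : ∀ i, Allows (kd i) (N i) ℓ₀ (JL J ℓ₀ i))
    (hT4 : ∀ a : Fin 4 → ι, a 0 = a 1 → a 2 = a 3 → ∀ j, ∑ t, w (a t) = 2 * j → ∀ T,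
      IsTate (fun i => (ρ i ℓ₀).comp s) ((κ ℓ₀).comp s) a j T → Killed (JL J ℓ₀) a T)
    (hS2 : ∀ i, Semi2 ℓ₀ ((ρ i ℓ₀).comp s))
    (hns : ∀ i, ∃ v ∉ S, (ℓ₀ : 𝓞 K) ∉ v.asIdeal ∧ ∀ n : ℕ, 0 < n →
      ∃ x : ℂ, aeval x (P i v) = 0 ∧
        x ^ (2 * n) ≠ (((Ideal.absNorm v.asIdeal : ℚ) ^ w i : ℚ) : ℂ) ^ n) :
    Y142.ZI.DensityZero {ℓ | ∃ _ : Fact ℓ.Prime, ¬ MSato J JA Pol (fun i => ρ i ℓ) α} ∧
    ∀ (ℓ : ℕ) [Fact ℓ.Prime], (∀ i, SS (ρ i ℓ)) → (∀ i, SC (ρ i ℓ)) →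
      MSato J JA Pol (fun i => ρ i ℓ) α := by
  classical
  have hfitL : ∀ (ℓ : ℕ) [Fact ℓ.Prime] (i : ι), Fits (kd i) (JL J ℓ i) := fun ℓ _ i =>
    (hfit i).map (algebraMap ℚ ℚ_[ℓ])
  have hdetL : ∀ (ℓ : ℕ) [Fact ℓ.Prime] (i : ι), (JL J ℓ i).det ≠ 0 := fun ℓ _ i =>
    det_map_ne (algebraMap ℚ ℚ_[ℓ]) (hdet i)
  have hform : ∀ (ℓ : ℕ) [Fact ℓ.Prime] (i : ι), IsForm (JL J ℓ i) := fun ℓ _ i =>
    (hfitL ℓ i).isForm (hdetL ℓ i)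
  have hsymJ : ∀ (ℓ : ℕ) [Fact ℓ.Prime] (i : ι), (JL J ℓ i)ᵀ = JL J ℓ i → (J i)ᵀ = J i := by
    intro ℓ _ i h
    ext p q
    have h1 := congrFun (congrFun h p) q
    exact (algebraMap ℚ ℚ_[ℓ]).injective h1
  have hsys : ∀ (i : ι) (ℓ : ℕ) [Fact ℓ.Prime], Sys s (kd i) (N i) ℓ (ρ i ℓ)
      (JL J ℓ i) S (P i) (fun v => (Ideal.absNorm v.asIdeal : ℚ) ^ w i) := by
    intro i ℓ _
    refine ⟨hρc i ℓ, hfitL ℓ i, hdetL ℓ i, fun γ => ⟨κ ℓ γ ^ w i, hmult i ℓ γ, fun h => ?_⟩, ?_⟩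
    · rw [hw i (hsymJ ℓ i h), pow_zero]
    · intro v hv hvℓ σ hσ
      refine ⟨hfrob i ℓ v hv hvℓ σ hσ, ?_⟩
      have h1 : Sim (JL J ℓ i) (ρ i ℓ (s σ⁻¹)) (κ ℓ (s σ⁻¹) ^ w i) := hmult i ℓ (s σ⁻¹)
      rw [hκ ℓ v hv hvℓ σ hσ] at h1
      show (ρ i ℓ (s σ⁻¹))ᵀ * JL J ℓ i * ρ i ℓ (s σ⁻¹) =
        (((Ideal.absNorm v.asIdeal : ℚ) ^ w i : ℚ) : ℚ_[ℓ]) • JL J ℓ i
      rw [Rat.cast_pow, Rat.cast_natCast]
      exact h1
  have hJC : ∀ (ℓ : ℕ) [Fact ℓ.Prime] (e : Lc ℓ →+* ℂ) (i : ι),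
      (up (JL J ℓ) i).map e = (J i).map (algebraMap ℚ ℂ) := by
    intro ℓ _ e i
    ext k l
    show e (algebraMap ℚ_[ℓ] (Lc ℓ) (algebraMap ℚ ℚ_[ℓ] (J i k l))) = algebraMap ℚ ℂ (J i k l)
    have h7 : e.comp ((algebraMap ℚ_[ℓ] (Lc ℓ)).comp (algebraMap ℚ ℚ_[ℓ])) = algebraMap ℚ ℂ :=
      Subsingleton.elim _ _
    exact RingHom.congr_fun h7 _
  have hmd : ∀ {F F' : Type} [Field F] [Field F'] (e : F →+* F') {n : ℕ}
      (A : Matrix (Fin n) (Fin n) F), (A.map e).det = e A.det := by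
    intro F F' _ _ e n A
    rw [RingHom.map_det, RingHom.mapMatrix_apply]
  have hpm : ∀ {F : Type} [Field F] {n : ℕ} {A X : Matrix (Fin n) (Fin n) F}, A.det ≠ 0 →
      Sim A X 1 → X.det = 1 ∨ X.det = -1 := by
    intro F _ n A X hA h1
    unfold Sim at h1
    rw [one_smul] at h1
    have h2 := congrArg Matrix.det h1
    rw [det_mul, det_mul, det_transpose] at h2
    have h4 : X.det * X.det = 1 := by
      have h5 : A.det * (X.det * X.det - 1) = 0 := by linear_combination h2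
      exact sub_eq_zero.1 ((mul_eq_zero.1 h5).resolve_left hA)
    exact mul_self_eq_one_iff.1 h4
  have hfull₀ : ∀ X, (∀ i, SpLie (JL J ℓ₀ i) (X i)) →
      JTan ℓ₀ (fun i => (ρ i ℓ₀).comp s) X :=
    full_of_moments (P := P) J hfit hdet ℓ₀ ((κ ℓ₀).comp s)
      (fun v hv hvℓ σ hσ => hκ ℓ₀ v hv hvℓ σ hσ) (fun i => (ρ i ℓ₀).comp s)
      (fun i => (hρc i ℓ₀).comp hs) (fun i g => hmult i ℓ₀ (s g))
      (fun i v hv hvℓ σ hσ => hfrob i ℓ₀ v hv hvℓ σ hσ) hT4 hS2 hns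
  have hsev := PO.several (K := K) PO.tasks hs hS ρ (fun i ℓ _ => JL J ℓ i) hsys ℓ₀ hal hfull₀
  have hconc : ∀ (ℓ : ℕ) [Fact ℓ.Prime],
      (∀ X, (∀ i, SpLie (JL J ℓ i) (X i)) → JTan ℓ (fun i => ρ i ℓ) X) →
      MSato J JA Pol (fun i => ρ i ℓ) α := by
    intro ℓ hℓ hfull x a hx ha
    have hupa : ∀ σ : Γ, ((α σ).map (algebraMap ℚ ℚ_[ℓ])).map (algebraMap ℚ_[ℓ] (Lc ℓ)) =
        upa ℓ (α σ) := by
      intro σ
      ext k l
      show algebraMap ℚ_[ℓ] (Lc ℓ) (algebraMap ℚ ℚ_[ℓ] (α σ k l)) = algebraMap ℚ (Lc ℓ) (α σ k l)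
      have h7 : (algebraMap ℚ_[ℓ] (Lc ℓ)).comp (algebraMap ℚ ℚ_[ℓ]) = algebraMap ℚ (Lc ℓ) :=
        Subsingleton.elim _ _
      exact RingHom.congr_fun h7 _
    constructor
    · intro hcl f hf
      rw [← eva_vala]
      refine hcl _ fun σ => ?_
      rw [eva_vala]
      have h1 := vala_map (algebraMap ℚ_[ℓ] (Lc ℓ)) f (fun i => ρ i ℓ σ)
        ((α σ).map (algebraMap ℚ ℚ_[ℓ]))
      rw [hgal ℓ σ f hf, map_zero, hupa] at h1
      exact h1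
    · intro hPol f hf
      obtain ⟨e⟩ := embC ℓ
      obtain ⟨σ₁, hσa, hσd⟩ := hcomp (fun i => (x i).map e.toRingHom) (a.map e.toRingHom)
        (fun i => by
          have h1 := hx i
          unfold Sim at h1 ⊢
          rw [one_smul] at h1 ⊢
          rw [← hJC ℓ e.toRingHom i, ← Matrix.transpose_map, ← Matrix.map_mul, ← Matrix.map_mul,
            h1])
        (by
          have h7 : algebraMap ℚ ℂ = e.toRingHom.comp (algebraMap ℚ (Lc ℓ)) :=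
            Subsingleton.elim _ _
          have h8 : JA.map (algebraMap ℚ ℂ) =
              (JA.map (algebraMap ℚ (Lc ℓ))).map e.toRingHom := by
            ext k l
            exact RingHom.congr_fun h7 _
          rw [h8, ← Matrix.transpose_map, ← Matrix.map_mul, ← Matrix.map_mul, ha])
        (fun f hf => by rw [vala_map, hPol f hf, map_zero])
      have hαa : a = upa ℓ (α σ₁) := by
        ext k l
        apply e.injective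
        have h2 := congrFun (congrFun hσa k) l
        refine h2.trans ?_
        show algebraMap ℚ ℂ (α σ₁ k l) = e.toRingHom (algebraMap ℚ (Lc ℓ) (α σ₁ k l))
        have h7 : algebraMap ℚ ℂ = e.toRingHom.comp (algebraMap ℚ (Lc ℓ)) := Subsingleton.elim _ _
        exact RingHom.congr_fun h7 _
      have hdets : ∀ i, (JL J ℓ i)ᵀ = JL J ℓ i →
          (x i).det = algebraMap ℚ_[ℓ] (Lc ℓ) (ρ i ℓ σ₁).det := by
        intro i hi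
        have hi' := hsymJ ℓ i hi
        have h1 := hσd i hi' ℓ
        rw [hmd] at h1
        have h2 : Sim (JL J ℓ i) (ρ i ℓ σ₁) 1 := by
          have h3 := hmult i ℓ σ₁
          rwa [hw i hi', pow_zero] at h3
        have hup : (up (JL J ℓ) i).det ≠ 0 := by
          rw [det_up]
          exact (_root_.map_ne_zero _).2 (hdetL ℓ i)
        rcases hpm (hdetL ℓ i) h2 with h3 | h3 <;> rcases hpm hup (hx i) with h4 | h4
        · rw [h3, h4, map_one]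
        · exfalso
          have h5 := h1.2 h3
          rw [h4, map_neg, map_one] at h5
          norm_num at h5
        · exfalso
          have h5 := h1.1 (by rw [h4, map_one])
          rw [h3] at h5
          have h6 : (2 : ℚ_[ℓ]) = 0 := by linear_combination -h5
          exact two_ne_zero h6
        · rw [h3, h4, map_neg, map_one]
      rw [← evf_spz]
      refine closure_coset (J := JL J ℓ) (fun i => hρc i ℓ) (hform ℓ)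
        (fun i h => hw i (hsymJ ℓ i h)) (hmult · ℓ) ?_ hfull (artin_index hU) (σ₁ := σ₁)
        (fun δ hδ => ?_) (t := 1) one_ne_zero (fun i => by rw [one_pow]; exact hx i) hdets
      · obtain ⟨v, hv, σ', hσ', -⟩ := Y405.ZO.t K Set.univ isOpen_univ ⟨1, trivial⟩
          (S ∪ {v | (ℓ : 𝓞 K) ∈ v.asIdeal}) (hS.union (finite_above ℓ hℓ.out))
        have hvS : v ∉ S := fun h => hv (Or.inl h)
        have hvℓ : (ℓ : 𝓞 K) ∉ v.asIdeal := fun h => hv (Or.inr h)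
        refine ⟨s σ'⁻¹, fun k hk h => ?_⟩
        rw [hκ ℓ v hvS hvℓ σ' hσ'] at h
        have h1 : (Ideal.absNorm v.asIdeal) ^ k = 1 := by exact_mod_cast h
        have h2 : Ideal.absNorm v.asIdeal = 1 := by
          rcases Nat.pow_eq_one.1 h1 with h3 | h3
          · exact h3
          · omega
        exact v.isPrime.ne_top (Ideal.absNorm_eq_one_iff.1 h2)
      · rw [evf_spz, hαa, ← artin_coset hUα σ₁ hδ]
        exact hf _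
  constructor
  · refine Y142.ZI.DensityZero.mono hsev.1 ?_
    rintro ℓ ⟨hp, hno⟩
    refine ⟨hp, fun hall' => hno (hconc ℓ fun X hX => ?_)⟩
    obtain ⟨σ, hσ⟩ := hall' X hX
    exact ⟨fun k => s (σ k), hσ⟩
  · intro ℓ _ hss hsc
    exact hconc ℓ fun X hX => hsev.2 ℓ hss hsc X hX

end

end

end Pool.Agent.R932.GR
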