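import Pool.Agent.R932.GR.Main

/-!
# The motivic Tate conjecture from one prime, with an Artin motive
-/

set_option autoImplicit false
set_option linter.unusedSectionVars false
set_option linter.style.haveILetI false

open Matrix Filter Topology NumberField IsDedekindDomain
open Pool.Agent.Y142.ZO Pool.Agent.Y142.ZS
open Pool.Agent.R932.PO (JTan IsForm Kind Fits Allows Sys JL det_map_ne)
open Pool.Agent.R932.EV (SS SC)

namespace Pool.Agent.R932.GR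

noncomputable section

section
variable {ι : Type} {N : ι → ℕ} {m : ℕ}

/-- polynomials in the entries of a family and of one more matrix -/
abbrev Pa (F : Type) [Field F] {ι : Type} (N : ι → ℕ) (m : ℕ) : Type :=
  MvPolynomial ((Σ i, Fin (N i) × Fin (N i)) ⊕ (Fin m × Fin m)) F

/-- the point -/
def pt {F : Type} (x : ∀ i, Matrix (Fin (N i)) (Fin (N i)) F) (a : Matrix (Fin m) (Fin m) F) :
    (Σ i, Fin (N i) × Fin (N i)) ⊕ (Fin m × Fin m) → F :=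
  Sum.elim (fun y => x y.1 y.2.1 y.2.2) fun y => a y.1 y.2

/-- evaluation -/
def eva {F : Type} [Field F] (x : ∀ i, Matrix (Fin (N i)) (Fin (N i)) F)
    (a : Matrix (Fin m) (Fin m) F) : Pa F N m →+* F :=
  MvPolynomial.eval (pt x a)

/-- specialization of the additional matrix -/
def spz {F : Type} [Field F] (a : Matrix (Fin m) (Fin m) F) : Pa F N m →ₐ[F] Pf F N :=
  MvPolynomial.aeval (Sum.elim (fun y => MvPolynomial.X y) fun y => MvPolynomial.C (a y.1 y.2))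

theorem evf_spz {F : Type} [Field F] [Fintype ι] (x : ∀ i, Matrix (Fin (N i)) (Fin (N i)) F)
    (a : Matrix (Fin m) (Fin m) F) (f : Pa F N m) : evf x (spz a f) = eva x a f := by
  unfold evf spz eva
  rw [MvPolynomial.aeval_def, MvPolynomial.eval₂_eq', map_sum, MvPolynomial.eval_eq']
  refine Finset.sum_congr rfl fun k _ => ?_
  rw [map_mul, map_prod]
  congr 1
  · show MvPolynomial.eval _ (MvPolynomial.C _) = _
    rw [MvPolynomial.eval_C]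
  · refine Finset.prod_congr rfl fun y _ => ?_
    rw [map_pow]
    congr 1
    rcases y with y | y
    · exact MvPolynomial.eval_X _
    · exact MvPolynomial.eval_C _

/-- the value of a rational polynomial -/
def vala {F : Type} [Field F] [Algebra ℚ F] (f : Pa ℚ N m)
    (x : ∀ i, Matrix (Fin (N i)) (Fin (N i)) F) (a : Matrix (Fin m) (Fin m) F) : F :=
  MvPolynomial.aeval (pt x a) f

theorem vala_map {F F' : Type} [Field F] [Algebra ℚ F] [Field F'] [Algebra ℚ F'] (φ : F →+* F')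
    (f : Pa ℚ N m) (x : ∀ i, Matrix (Fin (N i)) (Fin (N i)) F) (a : Matrix (Fin m) (Fin m) F) :
    vala f (fun i => (x i).map φ) (a.map φ) = φ (vala f x a) := by
  unfold vala
  rw [MvPolynomial.aeval_def, MvPolynomial.aeval_def, MvPolynomial.eval₂_comp_left φ]
  have h4 : φ.comp (algebraMap ℚ F) = algebraMap ℚ F' := Subsingleton.elim _ _
  rw [h4]
  congr 1
  funext y
  rcases y with y | y <;> rfl

theorem eva_vala {F : Type} [Field F] [Algebra ℚ F] (f : Pa ℚ N m)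
    (x : ∀ i, Matrix (Fin (N i)) (Fin (N i)) F) (a : Matrix (Fin m) (Fin m) F) :
    eva x a (MvPolynomial.map (algebraMap ℚ F) f) = vala f x a := by
  unfold eva vala
  rw [MvPolynomial.eval_map, MvPolynomial.aeval_def]

/-- a polynomial in the entries of the family only -/
def inc {F : Type} [Field F] (m : ℕ) : Pf F N →ₐ[F] Pa F N m := MvPolynomial.rename Sum.inl

theorem eva_inc {F : Type} [Field F] (x : ∀ i, Matrix (Fin (N i)) (Fin (N i)) F)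
    (a : Matrix (Fin m) (Fin m) F) (f : Pf F N) : eva x a (inc m f) = evf x f := by
  unfold eva inc evf
  rw [MvPolynomial.eval_rename]
  rfl

variable {ℓ : ℕ} [Fact ℓ.Prime] {Γ : Type} [Group Γ]

/-- a rational matrix over the algebraic closure -/
def upa (ℓ : ℕ) [Fact ℓ.Prime] (a : Matrix (Fin m) (Fin m) ℚ) : Matrix (Fin m) (Fin m) (Lc ℓ) :=
  a.map (algebraMap ℚ (Lc ℓ))

/-- the point belongs to the Zariski closure of the image -/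
def ClA (ρ : ∀ i, Γ →* Matrix (Fin (N i)) (Fin (N i)) ℚ_[ℓ]) (α : Γ →* Matrix (Fin m) (Fin m) ℚ)
    (x : ∀ i, Matrix (Fin (N i)) (Fin (N i)) (Lc ℓ)) (a : Matrix (Fin m) (Fin m) (Lc ℓ)) : Prop :=
  ∀ f : Pa (Lc ℓ) N m, (∀ σ, eva (up fun i => ρ i σ) (upa ℓ (α σ)) f = 0) → eva x a f = 0

/-- the Zariski closure of the image is the group given by the polynomials in `Pol` -/
def MTateA (Pol : Set (Pa ℚ N m)) (ρ : ∀ i, Γ →* Matrix (Fin (N i)) (Fin (N i)) ℚ_[ℓ])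
    (α : Γ →* Matrix (Fin m) (Fin m) ℚ) : Prop :=
  ∀ (x : ∀ i, Matrix (Fin (N i)) (Fin (N i)) (Lc ℓ)) (a : Matrix (Fin m) (Fin m) (Lc ℓ)),
    (∀ i, (x i).det ≠ 0) → a.det ≠ 0 → (ClA ρ α x a ↔ ∀ f ∈ Pol, vala f x a = 0)

/-- the components of the Zariski closure -/
theorem detsA (ρ : ∀ i, Γ →* Matrix (Fin (N i)) (Fin (N i)) ℚ_[ℓ])
    (α : Γ →* Matrix (Fin m) (Fin m) ℚ) [Fintype ι] (p : ι → Prop)
    (hpm : ∀ i, p i → ∀ σ, (ρ i σ).det = 1 ∨ (ρ i σ).det = -1) (hα : (Set.range α).Finite)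
    {x : ∀ i, Matrix (Fin (N i)) (Fin (N i)) (Lc ℓ)} {a : Matrix (Fin m) (Fin m) (Lc ℓ)}
    (hx : ClA ρ α x a) :
    ∃ σ, (∀ i, p i → (x i).det = algebraMap ℚ_[ℓ] (Lc ℓ) (ρ i σ).det) ∧ a = upa ℓ (α σ) := by
  classical
  by_contra hcon
  push Not at hcon
  obtain ⟨v, hv⟩ : ∃ v : Γ → ({i // p i} → ℚ_[ℓ]) × Matrix (Fin m) (Fin m) ℚ,
      v = fun σ => (fun i => (ρ i.1 σ).det, α σ) := ⟨_, rfl⟩
  have hfin : (Set.range v).Finite := by
    refine Set.Finite.subset (s := (Set.pi Set.univ fun _ : {i // p i} =>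
      ({1, -1} : Set ℚ_[ℓ])) ×ˢ (Set.range α)) ((Set.Finite.pi fun _ => Set.toFinite _).prod hα) ?_
    rintro _ ⟨σ, rfl⟩
    rw [hv]
    exact ⟨fun i _ => hpm i.1 i.2 σ, ⟨σ, rfl⟩⟩
  have hch : ∀ δ ∈ hfin.toFinset, ∃ F : Pa (Lc ℓ) N m,
      (∀ σ, v σ = δ → eva (up fun i => ρ i σ) (upa ℓ (α σ)) F = 0) ∧ eva x a F ≠ 0 := by
    intro δ hδ
    rw [Set.Finite.mem_toFinset] at hδ
    obtain ⟨τ, rfl⟩ := hδ
    by_cases h1 : ∀ i, p i → (x i).det = algebraMap ℚ_[ℓ] (Lc ℓ) (ρ i τ).det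
    · have h2 := hcon τ h1
      obtain ⟨k, l, hkl⟩ : ∃ k l, a k l ≠ upa ℓ (α τ) k l := by
        by_contra hno
        push Not at hno
        exact h2 (by ext k l; exact hno k l)
      refine ⟨MvPolynomial.X (Sum.inr (k, l)) - MvPolynomial.C (upa ℓ (α τ) k l),
        fun σ hσ => ?_, ?_⟩
      · have h3 : α σ = α τ := by
          rw [hv] at hσ
          exact (Prod.ext_iff.1 hσ).2
        rw [map_sub]
        unfold eva
        rw [MvPolynomial.eval_X, MvPolynomial.eval_C, h3]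
        exact sub_self _
      · rw [map_sub]
        unfold eva
        rw [MvPolynomial.eval_X, MvPolynomial.eval_C, sub_ne_zero]
        exact hkl
    · push Not at h1
      obtain ⟨i, hi, hne⟩ := h1
      refine ⟨inc m (detP N i - MvPolynomial.C (algebraMap ℚ_[ℓ] (Lc ℓ) (ρ i τ).det)),
        fun σ hσ => ?_, ?_⟩
      · have h3 : (ρ i σ).det = (ρ i τ).det := by
          rw [hv] at hσ
          exact congrFun (Prod.ext_iff.1 hσ).1 ⟨i, hi⟩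
        rw [eva_inc, map_sub, evf_detP, det_up, h3, sub_eq_zero]
        exact (MvPolynomial.eval_C _).symm
      · rw [eva_inc, map_sub, evf_detP, sub_ne_zero]
        refine fun h => hne (h.trans ?_)
        exact MvPolynomial.eval_C _
  choose! F hF hFn using hch
  have h1 := hx (∏ δ ∈ hfin.toFinset, F δ) ?_
  · rw [map_prod, Finset.prod_eq_zero_iff] at h1
    obtain ⟨δ, hδ, h2⟩ := h1
    exact hFn δ hδ h2
  · intro σ
    rw [map_prod]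
    have h2 : v σ ∈ hfin.toFinset := by
      rw [Set.Finite.mem_toFinset]
      exact ⟨σ, rfl⟩
    exact Finset.prod_eq_zero h2 (hF _ h2 σ rfl)

end

section artin
variable {Γ : Type} [Group Γ] [TopologicalSpace Γ] [IsTopologicalGroup Γ] [CompactSpace Γ] {m : ℕ}
  {α : Γ →* Matrix (Fin m) (Fin m) ℚ}

theorem artin_index {U : Subgroup Γ} (hU : IsOpen (U : Set Γ)) : U.FiniteIndex := by
  haveI := U.quotient_finite_of_isOpen hU
  exact Subgroup.finiteIndex_of_finite_quotient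

theorem artin_coset {U : Subgroup Γ} (hUα : ∀ σ ∈ U, α σ = 1) (σ : Γ) {δ : Γ} (hδ : δ ∈ U) :
    α (σ * δ) = α σ := by
  rw [map_mul, hUα δ hδ, mul_one]

theorem artin_fin {U : Subgroup Γ} (hU : IsOpen (U : Set Γ)) (hUα : ∀ σ ∈ U, α σ = 1) :
    (Set.range α).Finite := by
  haveI := U.quotient_finite_of_isOpen hU
  refine Set.Finite.subset (Set.finite_range fun q : Γ ⧸ U => α q.out) ?_
  rintro _ ⟨σ, rfl⟩
  refine ⟨(QuotientGroup.mk σ : Γ ⧸ U), ?_⟩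
  have h2 : ((QuotientGroup.mk σ : Γ ⧸ U).out)⁻¹ * σ ∈ U := by
    rw [← QuotientGroup.eq, QuotientGroup.out_eq']
  have h3 := artin_coset hUα ((QuotientGroup.mk σ : Γ ⧸ U).out) h2
  rw [mul_inv_cancel_left] at h3
  exact h3.symm

theorem artin_open {U : Subgroup Γ} (hU : IsOpen (U : Set Γ)) (hUα : ∀ σ ∈ U, α σ = 1)
    (A : Matrix (Fin m) (Fin m) ℚ) : IsOpen {σ | α σ = A} := by
  rw [isOpen_iff_mem_nhds]
  intro σ hσ
  have h1 : {τ | σ⁻¹ * τ ∈ (U : Set Γ)} ∈ 𝓝 σ := by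
    refine (hU.preimage (continuous_const.mul continuous_id)).mem_nhds ?_
    show σ⁻¹ * σ ∈ U
    rw [inv_mul_cancel]
    exact U.one_mem
  refine Filter.mem_of_superset h1 fun τ hτ => ?_
  have h2 := artin_coset hUα σ hτ
  rw [mul_inv_cancel_left] at h2
  show α τ = A
  rw [h2]
  exact hσ

end artin

theorem embC (ℓ : ℕ) [Fact ℓ.Prime] : Nonempty (Lc ℓ ≃+* ℂ) := by
  apply IsAlgClosed.ringEquiv_of_equiv_of_charZero
  · rw [mk_Lc]
    exact Cardinal.aleph0_lt_continuum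
  · rw [← Cardinal.eq, mk_Lc, Cardinal.mk_complex]

section
variable {K : Type} [Field K] [NumberField K] {ι : Type} [Fintype ι] [DecidableEq ι] {N w : ι → ℕ}
  {m : ℕ} {Γ : Type} [Group Γ] [TopologicalSpace Γ] [IsTopologicalGroup Γ] [CompactSpace Γ]
  {S : Set (HeightOneSpectrum (𝓞 K))} {P : ι → HeightOneSpectrum (𝓞 K) → Polynomial ℚ}
  {kd : ι → Kind} {s : GK K →* Γ}

/-- **from the full joint Lie algebra at `ℓ` and the components at `ℓ₀` to the group at `ℓ`** -/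
theorem group_atA (hS : S.Finite) (hs : Continuous s) (J : ∀ i, Matrix (Fin (N i)) (Fin (N i)) ℚ)
    (hfit : ∀ i, Fits (kd i) (J i)) (hdet : ∀ i, (J i).det ≠ 0) (hw : ∀ i, (J i)ᵀ = J i → w i = 0)
    (α : Γ →* Matrix (Fin m) (Fin m) ℚ) {U : Subgroup Γ} (hU : IsOpen (U : Set Γ))
    (hUα : ∀ σ ∈ U, α σ = 1)
    (ℓ : ℕ) [hℓ : Fact ℓ.Prime] (κ : Γ →* ℚ_[ℓ])
    (hκ : ∀ v ∉ S, (ℓ : 𝓞 K) ∉ v.asIdeal → ∀ σ : GK K, IsFrobenius v σ →
      κ (s σ⁻¹) = (Ideal.absNorm v.asIdeal : ℚ_[ℓ]))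
    (ρ : ∀ i : ι, Γ →* Matrix (Fin (N i)) (Fin (N i)) ℚ_[ℓ]) (hρc : ∀ i : ι, Continuous (ρ i))
    (hmult : ∀ (i : ι) (g : Γ), Sim (JL J ℓ i) (ρ i g) (κ g ^ w i))
    (hfrob : ∀ i : ι, ∀ v ∉ S, (ℓ : 𝓞 K) ∉ v.asIdeal → ∀ σ : GK K,
      IsFrobenius v σ → (ρ i (s σ⁻¹)).charpoly = (P i v).map (algebraMap ℚ ℚ_[ℓ]))
    (Pol : Set (Pa ℚ N m))
    (hpol : ∀ (x : ∀ i, Matrix (Fin (N i)) (Fin (N i)) (Lc ℓ)) (a : Matrix (Fin m) (Fin m) (Lc ℓ)),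
      (∀ i, (x i).det ≠ 0) → a.det ≠ 0 → (∀ f ∈ Pol, vala f x a = 0) →
      ∃ t : Lc ℓ, t ≠ 0 ∧ ∀ i, Sim (up (JL J ℓ) i) (x i) (t ^ w i))
    (hgal : ∀ σ : Γ, ∀ f ∈ Pol,
      vala f (fun i => ρ i σ) ((α σ).map (algebraMap ℚ ℚ_[ℓ])) = 0)
    (ℓ₀ : ℕ) [hℓ₀ : Fact ℓ₀.Prime] (ρ₀ : ∀ i : ι, GK K →* Matrix (Fin (N i)) (Fin (N i)) ℚ_[ℓ₀])
    (hρc₀ : ∀ i : ι, Continuous (ρ₀ i))
    (hiso₀ : ∀ (i : ι), (J i)ᵀ = J i → ∀ (g : GK K), Sim (JL J ℓ₀ i) (ρ₀ i g) 1)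
    (hfrob₀ : ∀ i : ι, ∀ v ∉ S, (ℓ₀ : 𝓞 K) ∉ v.asIdeal → ∀ σ : GK K,
      IsFrobenius v σ → (ρ₀ i σ⁻¹).charpoly = (P i v).map (algebraMap ℚ ℚ_[ℓ₀]))
    (hcomp : ∀ (x : ∀ i, Matrix (Fin (N i)) (Fin (N i)) (Lc ℓ₀))
      (a : Matrix (Fin m) (Fin m) (Lc ℓ₀)), (∀ i, (x i).det ≠ 0) → a.det ≠ 0 →
      (∀ f ∈ Pol, vala f x a = 0) → ClA ρ₀ (α.comp s) x a)
    (hfull : ∀ X, (∀ i, SpLie (JL J ℓ i) (X i)) → JTan ℓ ρ X) :
    MTateA Pol ρ α := by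
  classical
  have hform : ∀ i : ι, IsForm (JL J ℓ i) := fun i =>
    ((hfit i).map (algebraMap ℚ ℚ_[ℓ])).isForm (det_map_ne (algebraMap ℚ ℚ_[ℓ]) (hdet i))
  have hsymL : ∀ i : ι, (JL J ℓ i)ᵀ = JL J ℓ i → (J i)ᵀ = J i := by
    intro i h
    ext p q
    have h1 := congrFun (congrFun h p) q
    exact (algebraMap ℚ ℚ_[ℓ]).injective h1
  have hupa : ∀ σ : Γ, ((α σ).map (algebraMap ℚ ℚ_[ℓ])).map (algebraMap ℚ_[ℓ] (Lc ℓ)) =
      upa ℓ (α σ) := by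
    intro σ
    ext k l
    show algebraMap ℚ_[ℓ] (Lc ℓ) (algebraMap ℚ ℚ_[ℓ] (α σ k l)) = algebraMap ℚ (Lc ℓ) (α σ k l)
    have h7 : (algebraMap ℚ_[ℓ] (Lc ℓ)).comp (algebraMap ℚ ℚ_[ℓ]) = algebraMap ℚ (Lc ℓ) :=
      Subsingleton.elim _ _
    exact RingHom.congr_fun h7 _
  intro g a hg hga
  constructor
  · intro hcl f hf
    rw [← eva_vala]
    refine hcl _ fun σ => ?_
    rw [eva_vala]
    have h1 := vala_map (algebraMap ℚ_[ℓ] (Lc ℓ)) f (fun i => ρ i σ)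
      ((α σ).map (algebraMap ℚ ℚ_[ℓ]))
    rw [hgal σ f hf, map_zero, hupa] at h1
    exact h1
  · intro hPol f hf
    obtain ⟨t, ht, hgt⟩ := hpol g a hg hga hPol
    -- the determinants
    obtain ⟨φ⟩ := emb2 ℓ ℓ₀
    have hpm : ∀ i, (J i)ᵀ = J i → ∀ σ, (ρ₀ i σ).det = 1 ∨ (ρ₀ i σ).det = -1 := by
      intro i hi σ
      have h1 := hiso₀ i hi σ
      unfold Sim at h1
      rw [one_smul] at h1
      have h2 := congrArg Matrix.det h1
      rw [det_mul, det_mul, det_transpose] at h2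
      have h3 : (JL J ℓ₀ i).det ≠ 0 := det_map_ne (algebraMap ℚ ℚ_[ℓ₀]) (hdet i)
      have h4 : (ρ₀ i σ).det * (ρ₀ i σ).det = 1 := by
        have h5 : (JL J ℓ₀ i).det * ((ρ₀ i σ).det * (ρ₀ i σ).det - 1) = 0 := by
          linear_combination h2
        exact sub_eq_zero.1 ((mul_eq_zero.1 h5).resolve_left h3)
      exact mul_self_eq_one_iff.1 h4
    have hαfin : (Set.range (α.comp s)).Finite :=
      (artin_fin hU hUα).subset (by rintro _ ⟨σ, rfl⟩; exact ⟨s σ, rfl⟩)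
    obtain ⟨τ, hτ, hτa⟩ := detsA ρ₀ (α.comp s) (fun i => (J i)ᵀ = J i) hpm hαfin
      (hcomp (fun i => (g i).map φ) (a.map φ) (fun i => by
        have h1 : ((g i).map φ).det = φ (g i).det := by
          rw [RingHom.map_det, RingHom.mapMatrix_apply]
        rw [h1]
        exact (map_ne_zero φ).2 (hg i)) (by
        have h1 : (a.map φ).det = φ a.det := by
          rw [RingHom.map_det, RingHom.mapMatrix_apply]
        rw [h1]
        exact (map_ne_zero φ).2 hga) (fun f hf => by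
        rw [vala_map, hPol f hf, map_zero]))
    let O : Set (GK K) := {σ | ∀ i, (J i)ᵀ = J i → (ρ₀ i σ).det ≠ -(ρ₀ i τ).det} ∩
      {σ | α (s σ) = α (s τ)}
    have hO : IsOpen O := by
      refine IsOpen.inter ?_ ((artin_open hU hUα (α (s τ))).preimage hs)
      have h1 : {σ : GK K | ∀ i, (J i)ᵀ = J i → (ρ₀ i σ).det ≠ -(ρ₀ i τ).det} =
          ⋂ i : ι, {σ | (J i)ᵀ = J i → (ρ₀ i σ).det ≠ -(ρ₀ i τ).det} := by
        ext σ
        simp only [Set.mem_iInter]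
        rfl
      rw [h1]
      refine isOpen_iInter_of_finite fun i => ?_
      by_cases hi : (J i)ᵀ = J i
      · have h2 : {σ | (J i)ᵀ = J i → (ρ₀ i σ).det ≠ -(ρ₀ i τ).det} =
            {σ | (ρ₀ i σ).det ≠ -(ρ₀ i τ).det} := by
          ext σ
          exact ⟨fun h => h hi, fun h _ => h⟩
        rw [h2]
        exact isOpen_ne_fun (hρc₀ i).matrix_det continuous_const
      · have h2 : {σ : GK K | (J i)ᵀ = J i → (ρ₀ i σ).det ≠ -(ρ₀ i τ).det} = Set.univ := by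
          ext σ
          exact ⟨fun _ => trivial, fun _ h => absurd h hi⟩
        rw [h2]
        exact isOpen_univ
    have hne : O.Nonempty := by
      refine ⟨τ, fun i hi h => ?_, rfl⟩
      have h1 : (2 : ℚ_[ℓ₀]) * (ρ₀ i τ).det = 0 := by linear_combination h
      rcases mul_eq_zero.1 h1 with h2 | h2
      · exact two_ne_zero h2
      · rcases hpm i hi τ with h3 | h3
        · rw [h3] at h2
          exact one_ne_zero h2
        · rw [h3] at h2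
          exact one_ne_zero (neg_eq_zero.1 h2)
    obtain ⟨v, hv, σ', hσ', hσO⟩ := Y405.ZO.t K O hO hne
      (S ∪ ({v | (ℓ : 𝓞 K) ∈ v.asIdeal} ∪ {v | (ℓ₀ : 𝓞 K) ∈ v.asIdeal}))
      (hS.union ((finite_above ℓ hℓ.out).union (finite_above ℓ₀ hℓ₀.out)))
    have hvS : v ∉ S := fun h => hv (Or.inl h)
    have hvℓ : (ℓ : 𝓞 K) ∉ v.asIdeal := fun h => hv (Or.inr (Or.inl h))
    have hvℓ₀ : (ℓ₀ : 𝓞 K) ∉ v.asIdeal := fun h => hv (Or.inr (Or.inr h))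
    have hdets : ∀ i, (J i)ᵀ = J i →
        (g i).det = algebraMap ℚ_[ℓ] (Lc ℓ) (ρ i (s σ'⁻¹)).det := by
      intro i hi
      have h1 : (ρ₀ i σ'⁻¹).det = (ρ₀ i τ).det := by
        rcases hpm i hi σ'⁻¹ with h3 | h3 <;> rcases hpm i hi τ with h4 | h4
        · rw [h3, h4]
        · exact absurd (by rw [h3, h4, neg_neg]) (hσO.1 i hi)
        · exact absurd (by rw [h3, h4]) (hσO.1 i hi)
        · rw [h3, h4]
      have h2 := det_charpoly _ (hfrob₀ i v hvS hvℓ₀ σ' hσ')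
      have h3 := det_charpoly _ (hfrob i v hvS hvℓ σ' hσ')
      have h4 := hτ i hi
      rw [← h1, h2] at h4
      have h5 : ((g i).map φ).det = φ (g i).det := by
        rw [RingHom.map_det, RingHom.mapMatrix_apply]
      rw [h5] at h4
      apply φ.injective
      rw [h4, h3]
      have h6 : ∀ r : ℚ, algebraMap ℚ_[ℓ₀] (Lc ℓ₀) (algebraMap ℚ ℚ_[ℓ₀] r) =
          φ (algebraMap ℚ_[ℓ] (Lc ℓ) (algebraMap ℚ ℚ_[ℓ] r)) := by
        intro r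
        have h7 : (algebraMap ℚ_[ℓ₀] (Lc ℓ₀)).comp (algebraMap ℚ ℚ_[ℓ₀]) =
            φ.comp ((algebraMap ℚ_[ℓ] (Lc ℓ)).comp (algebraMap ℚ ℚ_[ℓ])) := Subsingleton.elim _ _
        exact RingHom.congr_fun h7 r
      exact h6 _
    have hαa : a = upa ℓ (α (s σ'⁻¹)) := by
      have h1 : α (s σ'⁻¹) = α (s τ) := hσO.2
      rw [h1]
      have h2 : a.map φ = (upa ℓ (α (s τ))).map φ := by
        rw [hτa]
        ext k l
        show algebraMap ℚ (Lc ℓ₀) (α (s τ) k l) = φ (algebraMap ℚ (Lc ℓ) (α (s τ) k l))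
        have h7 : algebraMap ℚ (Lc ℓ₀) = φ.comp (algebraMap ℚ (Lc ℓ)) := Subsingleton.elim _ _
        exact RingHom.congr_fun h7 _
      ext k l
      exact φ.injective (congrFun (congrFun h2 k) l)
    rw [← evf_spz]
    refine closure_coset (J := JL J ℓ) hρc hform (fun i h => hw i (hsymL i h)) hmult ?_ hfull
      (artin_index hU) (σ₁ := s σ'⁻¹) (fun δ hδ => ?_) ht hgt (fun i h => hdets i (hsymL i h))
    · refine ⟨s σ'⁻¹, fun k hk h => ?_⟩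
      rw [hκ v hvS hvℓ σ' hσ'] at h
      have h1 : (Ideal.absNorm v.asIdeal) ^ k = 1 := by exact_mod_cast h
      have h2 : Ideal.absNorm v.asIdeal = 1 := by
        rcases Nat.pow_eq_one.1 h1 with h3 | h3
        · exact h3
        · omega
      exact v.isPrime.ne_top (Ideal.absNorm_eq_one_iff.1 h2)
    · rw [evf_spz, hαa, ← artin_coset hUα (s σ'⁻¹) hδ]
      exact hf _

/-- **the motivic Tate conjecture from one prime** -/
theorem mtateA_main (hS : S.Finite) (hs : Continuous s)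
    (J : ∀ i, Matrix (Fin (N i)) (Fin (N i)) ℚ)
    (hfit : ∀ i, Fits (kd i) (J i)) (hdet : ∀ i, (J i).det ≠ 0) (hw : ∀ i, (J i)ᵀ = J i → w i = 0)
    (α : Γ →* Matrix (Fin m) (Fin m) ℚ) {U : Subgroup Γ} (hU : IsOpen (U : Set Γ))
    (hUα : ∀ σ ∈ U, α σ = 1)
    (κ : ∀ (ℓ : ℕ) [Fact ℓ.Prime], Γ →* ℚ_[ℓ])
    (hκ : ∀ (ℓ : ℕ) [Fact ℓ.Prime], ∀ v ∉ S, (ℓ : 𝓞 K) ∉ v.asIdeal → ∀ σ : GK K, IsFrobenius v σ →
      κ ℓ (s σ⁻¹) = (Ideal.absNorm v.asIdeal : ℚ_[ℓ]))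
    (ρ : ∀ (i : ι) (ℓ : ℕ) [Fact ℓ.Prime], Γ →* Matrix (Fin (N i)) (Fin (N i)) ℚ_[ℓ])
    (hρc : ∀ (i : ι) (ℓ : ℕ) [Fact ℓ.Prime], Continuous (ρ i ℓ))
    (hmult : ∀ (i : ι) (ℓ : ℕ) [Fact ℓ.Prime] (g : Γ),
      Sim (JL J ℓ i) (ρ i ℓ g) (κ ℓ g ^ w i))
    (hfrob : ∀ (i : ι) (ℓ : ℕ) [Fact ℓ.Prime], ∀ v ∉ S, (ℓ : 𝓞 K) ∉ v.asIdeal → ∀ σ : GK K,
      IsFrobenius v σ → (ρ i ℓ (s σ⁻¹)).charpoly = (P i v).map (algebraMap ℚ ℚ_[ℓ]))
    (Pol : Set (Pa ℚ N m))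
    (hpol : ∀ (x : ∀ i, Matrix (Fin (N i)) (Fin (N i)) ℂ) (a : Matrix (Fin m) (Fin m) ℂ),
      (∀ i, (x i).det ≠ 0) → a.det ≠ 0 → (∀ f ∈ Pol, vala f x a = 0) →
      ∃ t : ℂ, t ≠ 0 ∧ ∀ i, Sim ((J i).map (algebraMap ℚ ℂ)) (x i) (t ^ w i))
    (hbig : ∀ x : ∀ i, Matrix (Fin (N i)) (Fin (N i)) ℂ,
      (∀ i, (x i)ᵀ * (J i).map (algebraMap ℚ ℂ) * x i = (J i).map (algebraMap ℚ ℂ)) →
      (∀ i, (x i).det = 1) → ∀ f ∈ Pol, vala f x (1 : Matrix (Fin m) (Fin m) ℂ) = 0)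
    (hgal : ∀ (ℓ : ℕ) [Fact ℓ.Prime] (σ : Γ), ∀ f ∈ Pol,
      vala f (fun i => ρ i ℓ σ) ((α σ).map (algebraMap ℚ ℚ_[ℓ])) = 0)
    (ℓ₀ : ℕ) [hℓ₀ : Fact ℓ₀.Prime] (hal : ∀ i, Allows (kd i) (N i) ℓ₀ (JL J ℓ₀ i))
    (hone : MTateA Pol (fun i => (ρ i ℓ₀).comp s) (α.comp s)) :
    Y142.ZI.DensityZero {ℓ | ∃ _ : Fact ℓ.Prime, ¬ MTateA Pol (fun i => ρ i ℓ) α} ∧
    ∀ (ℓ : ℕ) [Fact ℓ.Prime], (∀ i, SS (ρ i ℓ)) → (∀ i, SC (ρ i ℓ)) →
      MTateA Pol (fun i => ρ i ℓ) α := by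
  classical
  have hfitL : ∀ (ℓ : ℕ) [Fact ℓ.Prime] (i : ι), Fits (kd i) (JL J ℓ i) := fun ℓ _ i =>
    (hfit i).map (algebraMap ℚ ℚ_[ℓ])
  have hdetL : ∀ (ℓ : ℕ) [Fact ℓ.Prime] (i : ι), (JL J ℓ i).det ≠ 0 := fun ℓ _ i =>
    det_map_ne (algebraMap ℚ ℚ_[ℓ]) (hdet i)
  have hform : ∀ (ℓ : ℕ) [Fact ℓ.Prime] (i : ι), IsForm (JL J ℓ i) := fun ℓ _ i =>
    (hfitL ℓ i).isForm (hdetL ℓ i)
  have hsymL : ∀ (ℓ : ℕ) [Fact ℓ.Prime] (i : ι), (JL J ℓ i)ᵀ = JL J ℓ i → w i = 0 := by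
    intro ℓ _ i h
    refine hw i ?_
    ext p q
    have h1 := congrFun (congrFun h p) q
    exact (algebraMap ℚ ℚ_[ℓ]).injective h1
  have hsys : ∀ (i : ι) (ℓ : ℕ) [Fact ℓ.Prime], Sys s (kd i) (N i) ℓ (ρ i ℓ)
      (JL J ℓ i) S (P i) (fun v => (Ideal.absNorm v.asIdeal : ℚ) ^ w i) := by
    intro i ℓ _
    refine ⟨hρc i ℓ, hfitL ℓ i, hdetL ℓ i, fun γ => ⟨κ ℓ γ ^ w i, hmult i ℓ γ, fun h => ?_⟩, ?_⟩
    · rw [hsymL ℓ i h, pow_zero]
    · intro v hv hvℓ σ hσ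
      refine ⟨hfrob i ℓ v hv hvℓ σ hσ, ?_⟩
      have h1 : Sim (JL J ℓ i) (ρ i ℓ (s σ⁻¹)) (κ ℓ (s σ⁻¹) ^ w i) := hmult i ℓ (s σ⁻¹)
      rw [hκ ℓ v hv hvℓ σ hσ] at h1
      show (ρ i ℓ (s σ⁻¹))ᵀ * JL J ℓ i * ρ i ℓ (s σ⁻¹) =
        (((Ideal.absNorm v.asIdeal : ℚ) ^ w i : ℚ) : ℚ_[ℓ]) • JL J ℓ i
      rw [Rat.cast_pow, Rat.cast_natCast]
      exact h1
  have hpos : ∀ i, 0 < N i := fun i => (hfit i).pos
  have hJC : ∀ (ℓ : ℕ) [Fact ℓ.Prime] (e : Lc ℓ →+* ℂ) (i : ι),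
      (up (JL J ℓ) i).map e = (J i).map (algebraMap ℚ ℂ) := by
    intro ℓ _ e i
    ext k l
    show e (algebraMap ℚ_[ℓ] (Lc ℓ) (algebraMap ℚ ℚ_[ℓ] (J i k l))) = algebraMap ℚ ℂ (J i k l)
    have h7 : e.comp ((algebraMap ℚ_[ℓ] (Lc ℓ)).comp (algebraMap ℚ ℚ_[ℓ])) = algebraMap ℚ ℂ :=
      Subsingleton.elim _ _
    exact RingHom.congr_fun h7 _
  have hmd : ∀ {F F' : Type} [Field F] [Field F'] (e : F →+* F') {n : ℕ}
      (A : Matrix (Fin n) (Fin n) F), (A.map e).det = e A.det := by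
    intro F F' _ _ e n A
    rw [RingHom.map_det, RingHom.mapMatrix_apply]
  -- transfer of the conditions to the algebraic closure of `ℚ_ℓ`
  have hpolL : ∀ (ℓ : ℕ) [Fact ℓ.Prime] (x : ∀ i, Matrix (Fin (N i)) (Fin (N i)) (Lc ℓ))
      (a : Matrix (Fin m) (Fin m) (Lc ℓ)), (∀ i, (x i).det ≠ 0) → a.det ≠ 0 →
      (∀ f ∈ Pol, vala f x a = 0) →
      ∃ t : Lc ℓ, t ≠ 0 ∧ ∀ i, Sim (up (JL J ℓ) i) (x i) (t ^ w i) := by
    intro ℓ _ x a hx ha hPol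
    obtain ⟨e⟩ := embC ℓ
    obtain ⟨t, ht, hxt⟩ := hpol (fun i => (x i).map e.toRingHom) (a.map e.toRingHom)
      (fun i => by rw [hmd]; exact (map_ne_zero e.toRingHom).2 (hx i))
      (by rw [hmd]; exact (map_ne_zero e.toRingHom).2 ha)
      (fun f hf => by rw [vala_map, hPol f hf, map_zero])
    refine ⟨e.symm t, (map_ne_zero e.symm).2 ht, fun i => ?_⟩
    have h1 := hxt i
    unfold Sim at h1 ⊢
    rw [← hJC ℓ e.toRingHom i, ← Matrix.transpose_map, ← Matrix.map_mul, ← Matrix.map_mul] at h1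
    ext k l
    apply e.injective
    have h2 := congrFun (congrFun h1 k) l
    rw [Matrix.smul_apply, Matrix.map_apply, Matrix.map_apply, smul_eq_mul] at h2
    rw [Matrix.smul_apply, smul_eq_mul, map_mul, map_pow, RingEquiv.apply_symm_apply]
    exact h2
  have hbigL : ∀ x : ∀ i, Matrix (Fin (N i)) (Fin (N i)) (Lc ℓ₀),
      (∀ i, (x i)ᵀ * up (JL J ℓ₀) i * x i = up (JL J ℓ₀) i) → (∀ i, (x i).det = 1) →
      ∀ f ∈ Pol, vala f x (1 : Matrix (Fin m) (Fin m) (Lc ℓ₀)) = 0 := by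
    intro x hx hxd f hf
    obtain ⟨e⟩ := embC ℓ₀
    have h1 := hbig (fun i => (x i).map e.toRingHom) (fun i => by
      rw [← hJC ℓ₀ e.toRingHom i, ← Matrix.transpose_map, ← Matrix.map_mul, ← Matrix.map_mul,
        hx i]) (fun i => by rw [hmd, hxd i, map_one]) f hf
    have h2 : (1 : Matrix (Fin m) (Fin m) ℂ) =
        (1 : Matrix (Fin m) (Fin m) (Lc ℓ₀)).map e.toRingHom :=
      (Matrix.map_one _ (map_zero _) (map_one _)).symm
    rw [h2, vala_map] at h1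
    exact (map_eq_zero e.toRingHom).1 h1
  -- the prime `ℓ₀`
  have hall : ∀ f : Pf (Lc ℓ₀) N, (∀ σ : GK K, evf (up fun i => (ρ i ℓ₀).comp s σ) f = 0) →
      Van (up (JL J ℓ₀)) f := by
    intro f hf x hx hxd
    have h1 := (hone x 1 (fun i => by rw [hxd i]; exact one_ne_zero)
      (by rw [det_one]; exact one_ne_zero)).2 (hbigL x hx hxd) (inc m f)
      (fun σ => by rw [eva_inc]; exact hf σ)
    rw [eva_inc] at h1
    exact h1
  have hfull₀ : ∀ X, (∀ i, SpLie (JL J ℓ₀ i) (X i)) →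
      JTan ℓ₀ (fun i => (ρ i ℓ₀).comp s) X := by
    intro X hX
    exact joint_of_zar (G := GK K) (ρ := fun i => (ρ i ℓ₀).comp s)
      (fun i => (hρc i ℓ₀).comp hs) (hform ℓ₀) hpos (fun i g => ⟨_, hmult i ℓ₀ (s g)⟩)
      (zarF_of (ρ := fun i => (ρ i ℓ₀).comp s) (fun i => form_symm (hform ℓ₀ i))
        (fun i => hdetL ℓ₀ i) hall) X hX
  have hsev := PO.several (K := K) PO.tasks hs hS ρ (fun i ℓ _ => JL J ℓ i) hsys ℓ₀ hal hfull₀
  have hconc : ∀ (ℓ : ℕ) [Fact ℓ.Prime],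
      (∀ X, (∀ i, SpLie (JL J ℓ i) (X i)) → JTan ℓ (fun i => ρ i ℓ) X) →
      MTateA Pol (fun i => ρ i ℓ) α := by
    intro ℓ _ hf
    refine group_atA hS hs J hfit hdet hw α hU hUα ℓ (κ ℓ) (hκ ℓ) (fun i => ρ i ℓ)
      (fun i => hρc i ℓ) (fun i g => hmult i ℓ g) (fun i => hfrob i ℓ) Pol (hpolL ℓ) (hgal ℓ) ℓ₀
      (fun i => (ρ i ℓ₀).comp s) (fun i => (hρc i ℓ₀).comp hs) (fun i hi g => ?_)
      (fun i => hfrob i ℓ₀) (fun x a hx ha hPol => (hone x a hx ha).2 hPol) hf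
    have h1 := hmult i ℓ₀ (s g)
    rw [hw i hi, pow_zero] at h1
    exact h1
  constructor
  · refine Y142.ZI.DensityZero.mono hsev.1 ?_
    rintro ℓ ⟨hp, hno⟩
    refine ⟨hp, fun hall' => hno (hconc ℓ fun X hX => ?_)⟩
    obtain ⟨σ, hσ⟩ := hall' X hX
    exact ⟨fun k => s (σ k), hσ⟩
  · intro ℓ _ hss hsc
    exact hconc ℓ fun X hX => hsev.2 ℓ hss hsc X hX

end

end

end Pool.Agent.R932.GR
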