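import Pool.Agent.R932.ZD.Cay2
import Pool.Agent.R932.ZD.Dens

/-!
# Isometries of alternating forms have determinant one
-/

set_option autoImplicit false

open Matrix

namespace Pool.Agent.R932.GR

theorem cay_det {L : Type} [Field L] {N : ℕ} {J X : Matrix (Fin N) (Fin N) L} (hJ : J.det ≠ 0)
    (hX : Xᵀ * J + J * X = 0) (h1 : (1 - X).det ≠ 0) : ((1 - X)⁻¹ * (1 + X)).det = 1 := by
  have h2 : (1 + X)ᵀ * J = J * (1 - X) := by
    have h3 : Xᵀ * J = -(J * X) := eq_neg_of_add_eq_zero_left hX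
    rw [transpose_add, transpose_one, add_mul, one_mul, h3, mul_sub, mul_one, sub_eq_add_neg]
  have h3 : (1 + X).det = (1 - X).det := by
    have h4 := congrArg Matrix.det h2
    rw [det_mul, det_mul, det_transpose, mul_comm J.det] at h4
    exact mul_right_cancel₀ hJ h4
  rw [det_mul, h3, det_nonsing_inv, Ring.inverse_eq_inv', inv_mul_cancel₀ h1]

/-- isometries of alternating forms have determinant one -/
theorem sp_det_one {L : Type} [Field L] [CharZero L] {N : ℕ} {J g : Matrix (Fin N) (Fin N) L}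
    (hs : Jᵀ = -J) (hJ : J.det ≠ 0) (hg : gᵀ * J * g = J) : g.det = 1 := by
  classical
  obtain ⟨R, Z, iR, iZ, dR, dZ, P, Q, P', Q', T, T', hcard, hM, hP, hQ, hT, hT', hker⟩ :=
    ZD.cay2_normal (1 + g)
  obtain ⟨X0, hX0, hX0d⟩ := ZD.cay2_first J g (-1) (by ring) (by rw [hs, neg_one_smul]) hJ hg T T'
    hT hT' hker 1 (by rw [transpose_one, neg_one_smul, neg_neg]) (by rw [det_one]; exact isUnit_one)
  obtain ⟨t, ht1, ht2⟩ := ZD.cay2_param (1 + g) (1 - g) X0 hX0d
  have hX : (t • X0)ᵀ * J + J * (t • X0) = 0 := by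
    rw [transpose_smul, Matrix.smul_mul, Matrix.mul_smul, ← smul_add, hX0, smul_zero]
  obtain ⟨Y, hY1, hY2, hY3⟩ := ZD.cay2_assembly J g (t • X0) hJ hg hX ht1 ht2
  rw [hY3, det_mul, cay_det hJ hX ht1, cay_det hJ hY1 hY2, mul_one]

end Pool.Agent.R932.GR
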