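import Pool.Agent.R932.GR.Full
import Pool.Agent.R932.GR.Sp1

/-!
# The Zariski closure of the image, from the full joint Lie algebra
-/

set_option autoImplicit false
set_option linter.unusedSectionVars false
set_option linter.style.haveILetI false

open Matrix Filter Topology
open Pool.Agent.Y142.ZO Pool.Agent.Y142.ZS
open Pool.Agent.R932.PO (JTan IsForm)

namespace Pool.Agent.R932.GR

noncomputable section

variable {ℓ : ℕ} [hℓ : Fact ℓ.Prime] {ι : Type} [Fintype ι] [DecidableEq ι] {N : ι → ℕ}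
  {Γ : Type} [Group Γ] [TopologicalSpace Γ] [IsTopologicalGroup Γ] [CompactSpace Γ]
  {ρ : ∀ i, Γ →* Matrix (Fin (N i)) (Fin (N i)) ℚ_[ℓ]}
  {J : ∀ i, Matrix (Fin (N i)) (Fin (N i)) ℚ_[ℓ]}

/-- the algebraic closure -/
abbrev Lc (ℓ : ℕ) [Fact ℓ.Prime] : Type := AlgebraicClosure ℚ_[ℓ]

/-- a family over the algebraic closure -/
def up (A : ∀ i, Matrix (Fin (N i)) (Fin (N i)) ℚ_[ℓ]) :
    ∀ i, Matrix (Fin (N i)) (Fin (N i)) (Lc ℓ) :=
  fun i => (A i).map (algebraMap ℚ_[ℓ] (Lc ℓ))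

theorem up_apply (A : ∀ i, Matrix (Fin (N i)) (Fin (N i)) ℚ_[ℓ]) (i : ι) :
    up A i = (A i).map (algebraMap ℚ_[ℓ] (Lc ℓ)) := rfl

theorem phi_eval (φ : Lc ℓ →ₗ[ℚ_[ℓ]] ℚ_[ℓ]) (f : Pf (Lc ℓ) N)
    (A : ∀ i, Matrix (Fin (N i)) (Fin (N i)) ℚ_[ℓ]) :
    evf A (∑ m ∈ f.support, MvPolynomial.monomial m (φ (f.coeff m))) = φ (evf (up A) f) := by
  classical
  unfold evf
  rw [map_sum, MvPolynomial.eval_eq, map_sum]
  refine Finset.sum_congr rfl fun m _ => ?_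
  rw [MvPolynomial.eval_monomial]
  have h1 : (f.coeff m * ∏ i ∈ m.support, (up A i.1 i.2.1 i.2.2) ^ m i) =
      (∏ i ∈ m.support, (A i.1 i.2.1 i.2.2) ^ m i) • f.coeff m := by
    rw [Algebra.smul_def, map_prod, mul_comm]
    congr 1
    refine Finset.prod_congr rfl fun i _ => ?_
    rw [map_pow, up_apply, Matrix.map_apply]
  rw [h1, map_smul, smul_eq_mul, mul_comm, Finsupp.prod]

/-- the zeros of a polynomial form a closed set -/
theorem closed_zero (hρ : ∀ i, Continuous (ρ i)) (f : Pf (Lc ℓ) N) :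
    IsClosed {σ : Γ | evf (up fun i => ρ i σ) f = 0} := by
  classical
  have h1 : {σ : Γ | evf (up fun i => ρ i σ) f = 0} = ⋂ φ : Lc ℓ →ₗ[ℚ_[ℓ]] ℚ_[ℓ],
      {σ : Γ | evf (fun i => ρ i σ)
        (∑ m ∈ f.support, MvPolynomial.monomial m (φ (f.coeff m))) = 0} := by
    ext σ
    simp only [Set.mem_ofPred_eq, Set.mem_iInter, phi_eval]
    constructor
    · intro h φ
      rw [h, map_zero]
    · intro h
      exact (Module.forall_dual_apply_eq_zero_iff ℚ_[ℓ] _).1 h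
  rw [h1]
  refine isClosed_iInter fun φ => isClosed_eq ?_ continuous_const
  unfold evf
  refine (MvPolynomial.continuous_eval _).comp (continuous_pi fun x => ?_)
  exact (continuous_apply_apply x.2.1 x.2.2).comp (hρ x.1)

/-- substitution of a left translation -/
def trl (A : ∀ i, Matrix (Fin (N i)) (Fin (N i)) (Lc ℓ)) : Pf (Lc ℓ) N →ₐ[Lc ℓ] Pf (Lc ℓ) N :=
  MvPolynomial.aeval fun x => ∑ c, MvPolynomial.C (A x.1 x.2.1 c) * MvPolynomial.X ⟨x.1, c, x.2.2⟩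

theorem evf_trl (A y : ∀ i, Matrix (Fin (N i)) (Fin (N i)) (Lc ℓ)) (f : Pf (Lc ℓ) N) :
    evf y (trl A f) = evf (fun i => A i * y i) f := by
  unfold trl evf
  rw [MvPolynomial.aeval_def, MvPolynomial.eval₂_eq', map_sum, MvPolynomial.eval_eq']
  refine Finset.sum_congr rfl fun m _ => ?_
  rw [map_mul, map_prod]
  congr 1
  · show MvPolynomial.eval _ (MvPolynomial.C _) = _
    rw [MvPolynomial.eval_C]
  · refine Finset.prod_congr rfl fun x _ => ?_
    rw [map_pow, map_sum]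
    congr 1
    show _ = (A x.1 * y x.1) x.2.1 x.2.2
    rw [Matrix.mul_apply]
    refine Finset.sum_congr rfl fun c _ => ?_
    rw [map_mul, MvPolynomial.eval_C, MvPolynomial.eval_X]

theorem sim_up {n : ℕ} {J g : Matrix (Fin n) (Fin n) ℚ_[ℓ]} {z : ℚ_[ℓ]} (h : Sim J g z) :
    Sim (J.map (algebraMap ℚ_[ℓ] (Lc ℓ))) (g.map (algebraMap ℚ_[ℓ] (Lc ℓ)))
      (algebraMap ℚ_[ℓ] (Lc ℓ) z) := by
  unfold Sim at *
  rw [← Matrix.transpose_map, ← Matrix.map_mul, ← Matrix.map_mul, h]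
  ext a b
  simp

theorem sim_smul {F : Type} [Field F] {n : ℕ} {J g : Matrix (Fin n) (Fin n) F} {z : F} (u : F)
    (h : Sim J g z) : Sim J (u • g) (u * u * z) := by
  unfold Sim at *
  rw [transpose_smul, smul_mul_assoc, smul_mul_assoc, mul_smul_comm, h, smul_smul, smul_smul,
    mul_assoc]

theorem sim_mul {F : Type} [Field F] {n : ℕ} {J g h : Matrix (Fin n) (Fin n) F} {y z : F}
    (hg : Sim J g y) (hh : Sim J h z) : Sim J (g * h) (y * z) := by
  unfold Sim at *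
  rw [transpose_mul]
  calc hᵀ * gᵀ * J * (g * h) = hᵀ * (gᵀ * J * g) * h := by simp only [mul_assoc]
    _ = y • (hᵀ * J * h) := by rw [hg, mul_smul_comm, smul_mul_assoc]
    _ = (y * z) • J := by rw [hh, smul_smul]

/-- **the Zariski closure of the image of a subgroup of finite index** -/
theorem core (hρ : ∀ i, Continuous (ρ i)) (hJ : ∀ i, IsForm (J i)) {κ : Γ →* ℚ_[ℓ]} {w : ι → ℕ}
    (hw : ∀ i, (J i)ᵀ = J i → w i = 0)
    (hmult : ∀ i g, Sim (J i) (ρ i g) (κ g ^ w i)) (hκ : ∃ σ, ∀ k : ℕ, 0 < k → κ σ ^ k ≠ 1)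
    (hfull : ∀ X, (∀ i, SpLie (J i) (X i)) → JTan ℓ ρ X) {f : Pf (Lc ℓ) N} {Δ : Subgroup Γ}
    (hΔ : Δ.FiniteIndex) (hf : ∀ σ ∈ Δ, evf (up fun i => ρ i σ) f = 0)
    {x : ∀ i, Matrix (Fin (N i)) (Fin (N i)) (Lc ℓ)} (hx : ∀ i, Sim (up J i) (x i) 1)
    (hxd : ∀ i, (x i).det = 1) (u : Lc ℓ) : evf (fun i => u ^ w i • x i) f = 0 := by
  classical
  let U := Δ.topologicalClosure
  have hUo : IsOpen (U : Set Γ) := by
    have : Δ.topologicalClosure.FiniteIndex := Subgroup.finiteIndex_of_le Δ.le_topologicalClosure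
    exact Subgroup.isOpen_of_isClosed_of_finiteIndex _ Δ.isClosed_topologicalClosure
  have hUfin : U.FiniteIndex := Subgroup.finiteIndex_of_le Δ.le_topologicalClosure
  have hfU : ∀ σ ∈ U, evf (up fun i => ρ i σ) f = 0 := fun σ hσ =>
    closure_minimal (fun s hs => hf s hs) (closed_zero hρ f) hσ
  haveI : CompactSpace U :=
    isCompact_iff_compactSpace.1 (Δ.isClosed_topologicalClosure).isCompact
  have hfullU : ∀ X, (∀ i, SpLie (J i) (X i)) → JTan ℓ (fun i => (ρ i).comp U.subtype) X :=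
    fun X hX => PO.joint_comp hρ hUo (fun γ hγ => ⟨⟨γ, hγ⟩, fun i => rfl⟩) (hfull X hX)
  obtain ⟨ε, hε, hopen⟩ := PO.jopen PO.jlie ℓ ι N U (fun i => (ρ i).comp U.subtype)
    (fun i => (hρ i).comp continuous_subtype_val) J hJ (fun i g => ⟨_, hmult i g.1⟩) hfullU
  -- the multipliers
  have hκ0 : ∀ σ, κ σ ≠ 0 := by
    intro σ h
    have h1 : κ σ * κ σ⁻¹ = 1 := by rw [← map_mul, mul_inv_cancel, map_one]
    rw [h, zero_mul] at h1
    exact zero_ne_one h1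
  have hinv : ∀ i σ, ρ i σ * ρ i σ⁻¹ = 1 := fun i σ => by rw [← map_mul, mul_inv_cancel, map_one]
  have hupmul : ∀ i (A B : Matrix (Fin (N i)) (Fin (N i)) ℚ_[ℓ]),
      (A * B).map (algebraMap ℚ_[ℓ] (Lc ℓ)) =
      A.map (algebraMap ℚ_[ℓ] (Lc ℓ)) * B.map (algebraMap ℚ_[ℓ] (Lc ℓ)) := fun i A B =>
    Matrix.map_mul
  have hstep : ∀ σ ∈ U, evf (fun i => (algebraMap ℚ_[ℓ] (Lc ℓ) (κ σ)) ^ w i • x i) f = 0 := by
    intro σ hσ
    let υ : Lc ℓ := algebraMap ℚ_[ℓ] (Lc ℓ) (κ σ)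
    have hυ : υ ≠ 0 := (map_ne_zero _).2 (hκ0 σ)
    have hz : ∀ y : ∀ i, Matrix (Fin (N i)) (Fin (N i)) (Lc ℓ), (∀ i, Sim (up J i) (y i) 1) →
        (∀ i, (y i).det = 1) → evf y (trl (up fun i => ρ i (σ * σ)) f) = 0 := by
      intro y hy hyd
      refine ZD.zd_gen ZD.cay2 ℓ (Lc ℓ) ι N J (fun i => form_symm (hJ i)) (fun i => (hJ i).2) ε hε
        (trl (up fun i => ρ i (σ * σ)) f) (fun g hg hgε => ?_) y (fun i => ?_) hyd
      · obtain ⟨τ, hτ⟩ := hopen g hg hgε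
        have h1 := evf_trl (up fun i => ρ i (σ * σ)) (up g) f
        refine h1.trans ?_
        have h2 : (fun i => up (fun i => ρ i (σ * σ)) i * up g i) =
            up fun i => ρ i (σ * σ * τ.1) := by
          funext i
          rw [up_apply, up_apply, up_apply, ← hupmul]
          congr 1
          rw [← hτ i, map_mul (ρ i) (σ * σ)]
          rfl
        rw [h2]
        exact hfU _ (U.mul_mem (U.mul_mem hσ hσ) τ.2)
      · have h1 := hy i
        unfold Sim at h1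
        rw [one_smul] at h1
        exact h1
    -- the point
    let y : ∀ i, Matrix (Fin (N i)) (Fin (N i)) (Lc ℓ) := fun i =>
      υ ^ w i • ((ρ i (σ * σ)⁻¹).map (algebraMap ℚ_[ℓ] (Lc ℓ)) * x i)
    have hsy : ∀ i, Sim (up J i) (y i) 1 := by
      intro i
      have h1 := sim_smul (υ ^ w i) (sim_mul (sim_up (hmult i (σ * σ)⁻¹)) (hx i))
      have h2 : υ ^ w i * υ ^ w i * (algebraMap ℚ_[ℓ] (Lc ℓ) (κ (σ * σ)⁻¹ ^ w i) * 1) = 1 := by
        have h3 : κ (σ * σ)⁻¹ * (κ σ * κ σ) = 1 := by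
          rw [← map_mul, ← map_mul, inv_mul_cancel, map_one]
        have h4 : κ (σ * σ)⁻¹ ^ w i * (κ σ ^ w i * κ σ ^ w i) = 1 := by
          rw [← mul_pow, ← mul_pow, h3, one_pow]
        have h5 := congrArg (algebraMap ℚ_[ℓ] (Lc ℓ)) h4
        rw [map_mul, map_mul, map_pow (algebraMap ℚ_[ℓ] (Lc ℓ)) (κ σ), map_one] at h5
        show υ ^ w i * υ ^ w i * (algebraMap ℚ_[ℓ] (Lc ℓ) (κ (σ * σ)⁻¹ ^ w i) * 1) = 1
        rw [mul_one, mul_comm]
        exact h5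
      rw [h2] at h1
      exact h1
    have hyd : ∀ i, (y i).det = 1 := by
      intro i
      rcases (hJ i).1 with ⟨h1, -⟩ | h1
      · have h2 : y i = (ρ i (σ * σ)⁻¹).map (algebraMap ℚ_[ℓ] (Lc ℓ)) * x i := by
          show υ ^ w i • _ = _
          rw [hw i h1, pow_zero, one_smul]
        rw [h2, det_mul, hxd, mul_one]
        have h3 : ((ρ i (σ * σ)⁻¹).map (algebraMap ℚ_[ℓ] (Lc ℓ))).det =
            algebraMap ℚ_[ℓ] (Lc ℓ) (ρ i (σ * σ)⁻¹).det := by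
          rw [RingHom.map_det, RingHom.mapMatrix_apply]
        have h4 : Sim (J i) (ρ i σ⁻¹) 1 := by
          have h5 := hmult i σ⁻¹
          rwa [hw i h1, pow_zero] at h5
        have h5 : (ρ i σ⁻¹)ᵀ * J i * ρ i σ⁻¹ = J i := by
          unfold Sim at h4
          rwa [one_smul] at h4
        rw [h3, _root_.mul_inv_rev, map_mul, det_mul, det_iso (hJ i).2 h5, map_one]
      · have h2 : (up J i)ᵀ = -up J i := by
          rw [up_apply, ← Matrix.transpose_map, h1]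
          ext a b
          simp
        have h3 : (up J i).det ≠ 0 := by
          have h4 : (up J i).det = algebraMap ℚ_[ℓ] (Lc ℓ) (J i).det := by
            rw [RingHom.map_det, RingHom.mapMatrix_apply]
            rfl
          rw [h4]
          exact (map_ne_zero _).2 (hJ i).2
        refine sp_det_one h2 h3 ?_
        have h4 := hsy i
        unfold Sim at h4
        rwa [one_smul] at h4
    have h1 := hz y hsy hyd
    rw [evf_trl] at h1
    have h2 : (fun i => up (fun i => ρ i (σ * σ)) i * y i) = fun i => υ ^ w i • x i := by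
      funext i
      show (ρ i (σ * σ)).map (algebraMap ℚ_[ℓ] (Lc ℓ)) *
        (υ ^ w i • ((ρ i (σ * σ)⁻¹).map (algebraMap ℚ_[ℓ] (Lc ℓ)) * x i)) = _
      rw [mul_smul_comm, ← mul_assoc, ← hupmul, hinv, Matrix.map_one _ (map_zero _) (map_one _),
        one_mul]
    rw [h2] at h1
    exact h1
  -- the polynomial in `u`
  let pol : Polynomial (Lc ℓ) := MvPolynomial.aeval
    (fun z : Σ i, Fin (N i) × Fin (N i) => Polynomial.C (x z.1 z.2.1 z.2.2) * Polynomial.X ^ w z.1) f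
  have hpol : ∀ v : Lc ℓ, pol.eval v = evf (fun i => v ^ w i • x i) f := by
    intro v
    show Polynomial.eval v (MvPolynomial.aeval _ f) = _
    unfold evf
    rw [MvPolynomial.aeval_def, MvPolynomial.eval₂_eq', Polynomial.eval_finsetSum,
      MvPolynomial.eval_eq']
    refine Finset.sum_congr rfl fun m _ => ?_
    rw [Polynomial.eval_mul, Polynomial.eval_prod]
    congr 1
    · show Polynomial.eval v (Polynomial.C _) = _
      rw [Polynomial.eval_C]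
    · refine Finset.prod_congr rfl fun z _ => ?_
      rw [Polynomial.eval_pow, Polynomial.eval_mul, Polynomial.eval_C, Polynomial.eval_pow,
        Polynomial.eval_X]
      show _ = ((v ^ w z.1 • x z.1) z.2.1 z.2.2) ^ m z
      rw [Matrix.smul_apply, smul_eq_mul, mul_comm (x z.1 z.2.1 z.2.2)]
  have hpol0 : pol = 0 := by
    obtain ⟨σ₀, hσ₀⟩ := hκ
    obtain ⟨m, hm0, hm⟩ : ∃ m : ℕ, 0 < m ∧ σ₀ ^ m ∈ U := by
      obtain ⟨m, hm0, -, hm⟩ := U.exists_pow_mem_of_index_ne_zero hUfin.index_ne_zero σ₀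
      exact ⟨m, hm0, hm⟩
    refine Polynomial.eq_zero_of_infinite_isRoot pol ?_
    refine Set.infinite_of_injective_forall_mem
      (f := fun k : ℕ => algebraMap ℚ_[ℓ] (Lc ℓ) (κ ((σ₀ ^ m) ^ k))) ?_ ?_
    · intro k l hkl
      have h1 := (algebraMap ℚ_[ℓ] (Lc ℓ)).injective hkl
      simp only [map_pow, ← pow_mul] at h1
      have key : ∀ k l : ℕ, k ≤ l → κ σ₀ ^ (m * k) = κ σ₀ ^ (m * l) → k = l := by
        intro k l hle h
        by_contra hne
        have hlt : k < l := lt_of_le_of_ne hle hne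
        refine hσ₀ (m * l - m * k) (Nat.sub_pos_of_lt (Nat.mul_lt_mul_of_pos_left hlt hm0)) ?_
        have h2 : κ σ₀ ^ (m * k) * κ σ₀ ^ (m * l - m * k) = κ σ₀ ^ (m * k) * 1 := by
          rw [← pow_add, Nat.add_sub_cancel' (Nat.mul_le_mul_left m hle), mul_one, h]
        exact mul_left_cancel₀ (pow_ne_zero _ (hκ0 σ₀)) h2
      rcases le_total k l with hle | hle
      · exact key k l hle h1
      · exact (key l k hle h1.symm).symm
    · intro k
      show Polynomial.IsRoot pol _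
      rw [Polynomial.IsRoot.def, hpol]
      exact hstep _ (U.pow_mem hm k)
  rw [← hpol, hpol0, Polynomial.eval_zero]

/-- **points of the Zariski closure of a coset of a subgroup of finite index** -/
theorem closure_coset (hρ : ∀ i, Continuous (ρ i)) (hJ : ∀ i, IsForm (J i)) {κ : Γ →* ℚ_[ℓ]}
    {w : ι → ℕ} (hw : ∀ i, (J i)ᵀ = J i → w i = 0)
    (hmult : ∀ i g, Sim (J i) (ρ i g) (κ g ^ w i)) (hκ : ∃ σ, ∀ k : ℕ, 0 < k → κ σ ^ k ≠ 1)
    (hfull : ∀ X, (∀ i, SpLie (J i) (X i)) → JTan ℓ ρ X) {f : Pf (Lc ℓ) N} {Δ : Subgroup Γ}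
    (hΔ : Δ.FiniteIndex) {σ₁ : Γ}
    (hf : ∀ σ ∈ Δ, evf (up fun i => ρ i (σ₁ * σ)) f = 0)
    {g : ∀ i, Matrix (Fin (N i)) (Fin (N i)) (Lc ℓ)} {t : Lc ℓ} (ht : t ≠ 0)
    (hg : ∀ i, Sim (up J i) (g i) (t ^ w i))
    (hσ₁ : ∀ i, (J i)ᵀ = J i → (g i).det = algebraMap ℚ_[ℓ] (Lc ℓ) (ρ i σ₁).det) :
    evf g f = 0 := by
  classical
  have hκ0 : ∀ σ, κ σ ≠ 0 := by
    intro σ h
    have h1 : κ σ * κ σ⁻¹ = 1 := by rw [← map_mul, mul_inv_cancel, map_one]
    rw [h, zero_mul] at h1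
    exact zero_ne_one h1
  have hinv : ∀ i σ, ρ i σ * ρ i σ⁻¹ = 1 := fun i σ => by rw [← map_mul, mul_inv_cancel, map_one]
  let τ : Lc ℓ := t * algebraMap ℚ_[ℓ] (Lc ℓ) (κ σ₁⁻¹)
  have hτ : τ ≠ 0 := mul_ne_zero ht ((map_ne_zero _).2 (hκ0 _))
  obtain ⟨u, hu⟩ := IsAlgClosed.exists_pow_nat_eq τ (by norm_num : 0 < 2)
  have hu0 : u ≠ 0 := by
    rintro rfl
    apply hτ
    rw [← hu]
    norm_num
  let x : ∀ i, Matrix (Fin (N i)) (Fin (N i)) (Lc ℓ) := fun i =>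
    (u⁻¹) ^ w i • ((ρ i σ₁⁻¹).map (algebraMap ℚ_[ℓ] (Lc ℓ)) * g i)
  have hx : ∀ i, Sim (up J i) (x i) 1 := by
    intro i
    have h1 := sim_smul ((u⁻¹) ^ w i) (sim_mul (sim_up (hmult i σ₁⁻¹)) (hg i))
    have h2 : (u⁻¹) ^ w i * (u⁻¹) ^ w i * (algebraMap ℚ_[ℓ] (Lc ℓ) (κ σ₁⁻¹ ^ w i) * t ^ w i) = 1 := by
      rw [map_pow, ← mul_pow, ← mul_pow, ← mul_pow]
      have h3 : u⁻¹ * u⁻¹ * (algebraMap ℚ_[ℓ] (Lc ℓ) (κ σ₁⁻¹) * t) = 1 := by
        have h4 : algebraMap ℚ_[ℓ] (Lc ℓ) (κ σ₁⁻¹) * t = u ^ 2 := by rw [hu, mul_comm]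
        rw [h4]
        field_simp
      rw [h3, one_pow]
    rw [h2] at h1
    exact h1
  have hxd : ∀ i, (x i).det = 1 := by
    intro i
    rcases (hJ i).1 with ⟨h1, -⟩ | h1
    · have h2 : x i = (ρ i σ₁⁻¹).map (algebraMap ℚ_[ℓ] (Lc ℓ)) * g i := by
        show (u⁻¹) ^ w i • _ = _
        rw [hw i h1, pow_zero, one_smul]
      have h3 : ((ρ i σ₁⁻¹).map (algebraMap ℚ_[ℓ] (Lc ℓ))).det =
          algebraMap ℚ_[ℓ] (Lc ℓ) (ρ i σ₁⁻¹).det := by
        rw [RingHom.map_det, RingHom.mapMatrix_apply]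
      rw [h2, det_mul, h3, hσ₁ i h1, ← map_mul, ← det_mul, ← map_mul, inv_mul_cancel, map_one,
        det_one, map_one]
    · have h2 : (up J i)ᵀ = -up J i := by
        rw [up_apply, ← Matrix.transpose_map, h1]
        ext a b
        simp
      have h3 : (up J i).det ≠ 0 := by
        have h4 : (up J i).det = algebraMap ℚ_[ℓ] (Lc ℓ) (J i).det := by
          rw [RingHom.map_det, RingHom.mapMatrix_apply]
          rfl
        rw [h4]
        exact (map_ne_zero _).2 (hJ i).2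
      refine sp_det_one h2 h3 ?_
      have h4 := hx i
      unfold Sim at h4
      rwa [one_smul] at h4
  have h1 := core hρ hJ hw hmult hκ hfull (f := trl (up fun i => ρ i σ₁) f) (Δ := Δ) hΔ
    (fun σ hσ => by
      rw [evf_trl]
      have h2 : (fun i => up (fun i => ρ i σ₁) i * up (fun i => ρ i σ) i) =
          up fun i => ρ i (σ₁ * σ) := by
        funext i
        rw [up_apply, up_apply, up_apply, ← Matrix.map_mul, map_mul]
      rw [h2]
      exact hf _ hσ) hx hxd u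
  rw [evf_trl] at h1
  have h2 : (fun i => up (fun i => ρ i σ₁) i * (u ^ w i • x i)) = g := by
    funext i
    show (ρ i σ₁).map (algebraMap ℚ_[ℓ] (Lc ℓ)) * (u ^ w i • ((u⁻¹) ^ w i •
      ((ρ i σ₁⁻¹).map (algebraMap ℚ_[ℓ] (Lc ℓ)) * g i))) = g i
    rw [smul_smul, ← mul_pow, mul_inv_cancel₀ hu0, one_pow, one_smul, ← mul_assoc,
      ← Matrix.map_mul, hinv, Matrix.map_one _ (map_zero _) (map_one _), one_mul]
  rwa [h2] at h1

/-- **points of the Zariski closure of the whole image** -/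
theorem closure_mem (hρ : ∀ i, Continuous (ρ i)) (hJ : ∀ i, IsForm (J i)) {κ : Γ →* ℚ_[ℓ]}
    {w : ι → ℕ} (hw : ∀ i, (J i)ᵀ = J i → w i = 0)
    (hmult : ∀ i g, Sim (J i) (ρ i g) (κ g ^ w i)) (hκ : ∃ σ, ∀ k : ℕ, 0 < k → κ σ ^ k ≠ 1)
    (hfull : ∀ X, (∀ i, SpLie (J i) (X i)) → JTan ℓ ρ X) {f : Pf (Lc ℓ) N}
    (hf : ∀ σ, evf (up fun i => ρ i σ) f = 0)
    {g : ∀ i, Matrix (Fin (N i)) (Fin (N i)) (Lc ℓ)} {t : Lc ℓ} (ht : t ≠ 0)
    (hg : ∀ i, Sim (up J i) (g i) (t ^ w i)) {σ₁ : Γ}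
    (hσ₁ : ∀ i, (J i)ᵀ = J i → (g i).det = algebraMap ℚ_[ℓ] (Lc ℓ) (ρ i σ₁).det) :
    evf g f = 0 :=
  closure_coset hρ hJ hw hmult hκ hfull (Δ := ⊤) inferInstance (fun _ _ => hf _) ht hg hσ₁

end

end Pool.Agent.R932.GR
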