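import Pool.Agent.R932.GR.Zar

/-!
# Families of representations: from the Zariski closure to the full joint Lie algebra
-/

set_option autoImplicit false
set_option linter.unusedSectionVars false
set_option linter.style.haveILetI false

open Matrix Filter Topology
open Pool.Agent.Y142.ZO Pool.Agent.Y142.ZS
open Pool.Agent.R932.PO (JTan IsForm S_JLIE S_JLIFT skew_sp)

namespace Pool.Agent.R932.GR

noncomputable section

variable {ℓ : ℕ} [hℓ : Fact ℓ.Prime] {ι : Type} [Fintype ι] [DecidableEq ι] {N : ι → ℕ}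
  {G : Type} [Group G] [TopologicalSpace G] [IsTopologicalGroup G] [CompactSpace G]
  {ρ : ∀ i, G →* Matrix (Fin (N i)) (Fin (N i)) ℚ_[ℓ]}
  {J : ∀ i, Matrix (Fin (N i)) (Fin (N i)) ℚ_[ℓ]}

theorem form_symm {F : Type} [Field F] {n : ℕ} {J : Matrix (Fin n) (Fin n) F} (h : IsForm J) :
    Jᵀ = J ∨ Jᵀ = -J := by
  rcases h.1 with h | h
  · exact Or.inl h.1
  · exact Or.inr h

theorem single_sp (i : ι) {X : Matrix (Fin (N i)) (Fin (N i)) ℚ_[ℓ]} (hX : SpLie (J i) X) (j : ι) :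
    SpLie (J j) ((Pi.single i X : ∀ i, Matrix (Fin (N i)) (Fin (N i)) ℚ_[ℓ]) j) := by
  by_cases hj : j = i
  · subst hj
    rw [Pi.single_eq_same]
    exact hX
  · rw [Pi.single_eq_of_ne hj]
    unfold SpLie
    rw [transpose_zero, zero_mul, mul_zero, add_zero]

/-- matrices with many eigenvectors are scalar -/
theorem scalar_of_lines {n : ℕ} {A : Matrix (Fin n) (Fin n) ℚ_[ℓ]}
    (h : ∀ a b : Fin n, ∃ z : ℚ_[ℓ], A *ᵥ (Pi.single a 1 + Pi.single b 1) =
      z • (Pi.single a 1 + Pi.single b 1)) : (∀ a b, a ≠ b → A a b = 0) ∧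
        ∀ a b, A a a = A b b := by
  have h1 : ∀ a b, a ≠ b → A a b = 0 := by
    intro a b hab
    obtain ⟨z, hz⟩ := h b b
    have h2 := congrFun hz a
    rw [mulVec_add, mulVec_single_one, Pi.add_apply, Matrix.col_apply, Pi.smul_apply,
      Pi.add_apply, Pi.single_eq_of_ne hab, add_zero, smul_zero] at h2
    have h3 : (2 : ℚ_[ℓ]) * A a b = 0 := by linear_combination h2
    exact (mul_eq_zero.1 h3).resolve_left two_ne_zero
  refine ⟨h1, fun a b => ?_⟩
  by_cases hab : a = b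
  · rw [hab]
  obtain ⟨z, hz⟩ := h a b
  have h2 := congrFun hz a
  have h3 := congrFun hz b
  rw [mulVec_add, mulVec_single_one, mulVec_single_one, Pi.add_apply, Matrix.col_apply,
    Matrix.col_apply, Pi.smul_apply, Pi.add_apply, Pi.single_eq_same, Pi.single_eq_of_ne hab,
    add_zero, h1 a b hab, add_zero, smul_eq_mul, mul_one] at h2
  rw [mulVec_add, mulVec_single_one, mulVec_single_one, Pi.add_apply, Matrix.col_apply,
    Matrix.col_apply, Pi.smul_apply, Pi.add_apply, Pi.single_eq_same,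
    Pi.single_eq_of_ne (Ne.symm hab), zero_add, h1 b a (Ne.symm hab), zero_add, smul_eq_mul,
    mul_one] at h3
  rw [h2, h3]

theorem exists_comp (hρ : ∀ i, Continuous (ρ i)) (hJ : ∀ i, IsForm (J i)) (hN : ∀ i, 0 < N i)
    (hZ : ZarF ρ J) (i : ι) :
    ∃ X, JTan ℓ ρ X ∧ ∀ z : ℚ_[ℓ], X i ≠ z • 1 := by
  by_contra hcon
  have hzero : ∀ Y, IsTangent ℓ (ρ i) Y → ∃ z : ℚ_[ℓ], Y = z • 1 := by
    intro Y hY
    obtain ⟨X, hX, hXi⟩ := PO.jlift ℓ ι N G ρ hρ i Y hY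
    by_contra hno
    push Not at hno
    exact hcon ⟨X, hX, fun z => by rw [hXi]; exact hno z⟩
  -- an open subgroup acts by scalars
  have hline : ∀ a b : Fin (N i), ∃ U : Subgroup G, IsOpen (U : Set G) ∧ ∀ σ ∈ U, ∃ z : ℚ_[ℓ],
      ρ i σ *ᵥ (Pi.single a 1 + Pi.single b 1) = z • (Pi.single a 1 + Pi.single b 1) := by
    intro a b
    obtain ⟨w, hw⟩ : ∃ w : Fin (N i) → ℚ_[ℓ], w = Pi.single a 1 + Pi.single b 1 := ⟨_, rfl⟩
    obtain ⟨U, hU, hUr⟩ := Y497.ZO.exp ℓ (N i) G (ρ i) (hρ i) (Submodule.span ℚ_[ℓ] {w})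
      (Submodule.span ℚ_[ℓ] {w}) le_rfl (fun Y hY v hv => by
        obtain ⟨z, rfl⟩ := hzero Y hY
        rw [smul_mulVec, one_mulVec]
        exact Submodule.smul_mem _ _ hv)
    refine ⟨U, hU, fun σ hσ => ?_⟩
    have h1 := hUr σ hσ w (Submodule.mem_span_singleton_self w)
    obtain ⟨z, hz⟩ := Submodule.mem_span_singleton.1 h1
    refine ⟨z + 1, ?_⟩
    rw [← hw, add_smul, one_smul, hz, sub_add_cancel]
  choose U hU hUl using hline
  have hfin : (⨅ a, ⨅ b, U a b).FiniteIndex := by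
    haveI : ∀ a b, (U a b).FiniteIndex := fun a b => by
      haveI := (U a b).quotient_finite_of_isOpen (hU a b)
      exact Subgroup.finiteIndex_of_finite_quotient
    exact Subgroup.finiteIndex_iInf fun a => Subgroup.finiteIndex_iInf fun b => inferInstance
  have hsc : ∀ σ ∈ (⨅ a, ⨅ b, U a b), (∀ a b, a ≠ b → ρ i σ a b = 0) ∧
      ∀ a b, ρ i σ a a = ρ i σ b b := by
    intro σ hσ
    refine scalar_of_lines fun a b => hUl a b σ ?_
    exact Subgroup.mem_iInf.1 (Subgroup.mem_iInf.1 hσ a) b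
  -- all isometries of determinant one are scalars
  have hupd : ∀ t : Matrix (Fin (N i)) (Fin (N i)) ℚ_[ℓ], tᵀ * J i * t = J i → t.det = 1 →
      ∀ f : Pf ℚ_[ℓ] N, (∀ σ ∈ (⨅ a, ⨅ b, U a b), evf (fun i => ρ i σ) f = 0) →
        evf (Function.update (fun j => (1 : Matrix (Fin (N j)) (Fin (N j)) ℚ_[ℓ])) i t) f = 0 := by
    intro t ht htd f hf
    have hne : ∀ j, j ≠ i → Function.update (fun j : ι =>
        (1 : Matrix (Fin (N j)) (Fin (N j)) ℚ_[ℓ])) i t j = 1 := fun j hj =>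
      Function.update_of_ne hj _ _
    refine hZ f ⟨_, hfin, hf⟩ _ (fun j => ?_) fun j => ?_
    · by_cases hj : j = i
      · subst hj
        rw [Function.update_self]
        exact ht
      · rw [hne j hj, transpose_one, one_mul, mul_one]
    · by_cases hj : j = i
      · subst hj
        rw [Function.update_self]
        exact htd
      · rw [hne j hj, det_one]
  have hall : ∀ t : Matrix (Fin (N i)) (Fin (N i)) ℚ_[ℓ], tᵀ * J i * t = J i → t.det = 1 →
      (∀ a b, a ≠ b → t a b = 0) ∧ ∀ a b, t a a = t b b := by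
    intro t ht htd
    have hev : ∀ (A : ∀ i, Matrix (Fin (N i)) (Fin (N i)) ℚ_[ℓ]) (a b : Fin (N i)),
        evf A (MvPolynomial.X ⟨i, a, b⟩) = A i a b := by
      intro A a b
      unfold evf
      rw [MvPolynomial.eval_X]
    constructor
    · intro a b hab
      have h1 := hupd t ht htd (MvPolynomial.X ⟨i, a, b⟩) fun σ hσ => by
        rw [hev]
        exact (hsc σ hσ).1 a b hab
      rw [hev, Function.update_self] at h1
      exact h1
    · intro a b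
      have h1 := hupd t ht htd (MvPolynomial.X ⟨i, a, a⟩ - MvPolynomial.X ⟨i, b, b⟩) fun σ hσ => by
        rw [map_sub, hev, hev]
        exact sub_eq_zero.2 ((hsc σ hσ).2 a b)
      rw [map_sub, hev, hev, Function.update_self, sub_eq_zero] at h1
      exact h1
  obtain ⟨Y, Y', hY, hY', hYY⟩ := PO.pos_noncomm (K := ℚ_[ℓ]) (hJ i) (hN i)
  obtain ⟨t, ht, htd, htl⟩ := cay_seq (form_symm (hJ i)) (hJ i).2 hY
  haveI : T2Space (Matrix (Fin (N i)) (Fin (N i)) ℚ_[ℓ]) :=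
    inferInstanceAs (T2Space (Fin (N i) → Fin (N i) → ℚ_[ℓ]))
  have h1 : Tendsto (fun k : ℕ => (((ℓ : ℚ_[ℓ]) ^ k)⁻¹ • (t k - 1)) * Y' -
      Y' * (((ℓ : ℚ_[ℓ]) ^ k)⁻¹ • (t k - 1))) atTop (𝓝 (Y * Y' - Y' * Y)) :=
    (Tendsto.mul htl tendsto_const_nhds).sub (Tendsto.mul tendsto_const_nhds htl)
  have h2 : ∀ k, (((ℓ : ℚ_[ℓ]) ^ k)⁻¹ • (t k - 1)) * Y' -
      Y' * (((ℓ : ℚ_[ℓ]) ^ k)⁻¹ • (t k - 1)) = 0 := by
    intro k
    obtain ⟨h3, h4⟩ := hall (t k) (ht k) (htd k)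
    have h5 : t k = (t k ⟨0, hN i⟩ ⟨0, hN i⟩) • (1 : Matrix (Fin (N i)) (Fin (N i)) ℚ_[ℓ]) := by
      ext a b
      rw [Matrix.smul_apply, smul_eq_mul]
      by_cases hab : a = b
      · subst hab
        rw [Matrix.one_apply_eq, mul_one]
        exact h4 _ _
      · rw [Matrix.one_apply_ne hab, mul_zero]
        exact h3 a b hab
    rw [h5]
    simp only [smul_sub, sub_mul, mul_sub, smul_mul_assoc, one_mul, mul_smul_comm, mul_one]
    abel
  have h3 : Y * Y' - Y' * Y = 0 :=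
    tendsto_nhds_unique h1 (tendsto_const_nhds.congr fun k => (h2 k).symm)
  exact hYY h3

/-- **if the Zariski closure contains the isometries of determinant one then the joint Lie algebra is
full** -/
theorem joint_of_zar (hρ : ∀ i, Continuous (ρ i)) (hJ : ∀ i, IsForm (J i)) (hN : ∀ i, 0 < N i)
    (hsim : ∀ i g, ∃ c, Sim (J i) (ρ i g) c) (hZ : ZarF ρ J)
    (X : ∀ i, Matrix (Fin (N i)) (Fin (N i)) ℚ_[ℓ]) (hX : ∀ i, SpLie (J i) (X i)) :
    JTan ℓ ρ X := by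
  classical
  obtain ⟨𝔤, h𝔤, hbr, hconj⟩ := PO.jlie ℓ ι N G ρ
  have hst := fun X hX t ht htd => conj_stable hZ 𝔤 hconj (X := X) hX (t := t) ht htd
  have hlie := fun {X} {Y} hX hY => lie_stable (fun i => form_symm (hJ i)) (fun i => (hJ i).2) 𝔤 hst
    (X := X) (Y := Y) hX hY
  have hskew : ∀ X ∈ 𝔤, ∀ i, ∃ μ : ℚ_[ℓ], (X i)ᵀ * J i + J i * X i = μ • J i := by
    intro X hX i
    obtain ⟨σ, hσ⟩ := (h𝔤 X).1 hX
    exact Y710.ZS.t1 ℓ (N i) G (ρ i) (J i) (hJ i).2 (hsim i) (X i) ⟨σ, hσ i⟩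
  have key : ∀ i (Z : Matrix (Fin (N i)) (Fin (N i)) ℚ_[ℓ]), SpLie (J i) Z →
      Pi.single i Z ∈ 𝔤 := by
    intro i
    obtain ⟨X₀, hX₀, hne⟩ := exists_comp hρ hJ hN hZ i
    have hX₀' := (h𝔤 X₀).2 hX₀
    obtain ⟨μ, hμ⟩ := hskew X₀ hX₀' i
    let I : Submodule ℚ_[ℓ] (Matrix (Fin (N i)) (Fin (N i)) ℚ_[ℓ]) :=
      𝔤.comap (LinearMap.single ℚ_[ℓ] (fun i => Matrix (Fin (N i)) (Fin (N i)) ℚ_[ℓ]) i)
    have hI : ∀ Z, Z ∈ I ↔ (Pi.single i Z : ∀ i, Matrix (Fin (N i)) (Fin (N i)) ℚ_[ℓ]) ∈ 𝔤 :=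
      fun Z => Iff.rfl
    have hfun : ∀ (Y : Matrix (Fin (N i)) (Fin (N i)) ℚ_[ℓ])
        (X : ∀ i, Matrix (Fin (N i)) (Fin (N i)) ℚ_[ℓ]),
        (fun j => (Pi.single i Y : ∀ i, Matrix (Fin (N i)) (Fin (N i)) ℚ_[ℓ]) j * X j -
          X j * (Pi.single i Y : ∀ i, Matrix (Fin (N i)) (Fin (N i)) ℚ_[ℓ]) j) =
        Pi.single i (Y * X i - X i * Y) := by
      intro Y X
      funext j
      by_cases hj : j = i
      · subst hj
        rw [Pi.single_eq_same, Pi.single_eq_same]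
      · rw [Pi.single_eq_of_ne hj, Pi.single_eq_of_ne hj, zero_mul, mul_zero, sub_zero]
    -- a nonzero element
    obtain ⟨Y, hY, hY0⟩ : ∃ Y, SpLie (J i) Y ∧ Y * X₀ i - X₀ i * Y ≠ 0 := by
      by_contra hcon
      push Not at hcon
      have h1 : SpLie (J i) (X₀ i - (μ / 2) • 1) := by
        rw [← PO.pr_sim (hJ i).2 hμ]
        exact PO.pr_spLie (hJ i) _
      have h2 := PO.center_zero (K := ℚ_[ℓ]) (J := J i) (hJ i) h1 fun Y hY => by
        rw [mul_sub, sub_mul, mul_smul_comm, smul_mul_assoc, mul_one, one_mul]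
        have h3 := hcon Y hY
        have h4 : Y * X₀ i - (μ / 2) • Y - (X₀ i * Y - (μ / 2) • Y) = Y * X₀ i - X₀ i * Y := by
          abel
        rw [h4, h3]
      exact hne (μ / 2) (sub_eq_zero.1 h2)
    have h1 : (Y * X₀ i - X₀ i * Y) ∈ I := by
      rw [hI, ← hfun]
      exact hlie hX₀' (single_sp i hY)
    have h2 : SpLie (J i) (Y * X₀ i - X₀ i * Y) :=
      PO.spLie_bracket (PO.spLie_zero_iff.1 hY) hμ
    intro Z hZs
    rw [← hI]
    refine PO.form_ideal (hJ i) I (fun A hA B hB => ?_) h1 h2 hY0 hZs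
    have h5 := hlie (X := Pi.single i B) (Y := Pi.single i A) hB (single_sp i hA)
    rw [hfun, Pi.single_eq_same] at h5
    exact h5
  refine (h𝔤 X).1 ?_
  rw [← Finset.univ_sum_single X]
  exact 𝔤.sum_mem fun i _ => key i (X i) (hX i)

end

end Pool.Agent.R932.GR
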