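import Pool.Agent.R932.GR.Core

/-!
# The isometries of determinant one form an irreducible variety
-/

set_option autoImplicit false
set_option linter.unusedSectionVars false
set_option linter.style.haveILetI false

open Matrix MvPolynomial
open Pool.Agent.R932.ZD

namespace Pool.Agent.R932.GR

noncomputable section

section
variable {L : Type} [Field L] [CharZero L] {ι : Type} [Fintype ι] {N : ι → ℕ}
  {J : ∀ i, Matrix (Fin (N i)) (Fin (N i)) L}

/-- a rational parametrization of the isometries of determinant one -/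
theorem param (hJ : ∀ i, (J i)ᵀ = J i ∨ (J i)ᵀ = -J i) (hdet : ∀ i, (J i).det ≠ 0) :
    ∃ (y D : (Σ i, Fin (N i) × Fin (N i)) →
        MvPolynomial (Bool × (Σ i, Fin (N i) × Fin (N i))) L),
      (∀ x, eval (0 : Bool × (Σ i, Fin (N i) × Fin (N i)) → L) (D x) ≠ 0) ∧
      (∀ z, (∀ x, eval z (D x) ≠ 0) → ∃ g : ∀ i, Matrix (Fin (N i)) (Fin (N i)) L,
        (∀ i, (g i)ᵀ * J i * g i = J i) ∧ (∀ i, (g i).det = 1) ∧
        (fun x => eval z (y x) / eval z (D x)) = fun x => g x.1 x.2.1 x.2.2) ∧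
      ∀ g : ∀ i, Matrix (Fin (N i)) (Fin (N i)) L, (∀ i, (g i)ᵀ * J i * g i = J i) →
        (∀ i, (g i).det = 1) → ∃ z, (∀ x, eval z (D x) ≠ 0) ∧
          (fun x => eval z (y x) / eval z (D x)) = fun x => g x.1 x.2.1 x.2.2 := by
  classical
  have hs : ∀ i, ∃ s : ℤ, (s = 1 ∨ s = -1) ∧ (J i)ᵀ = s • J i := by
    intro i
    rcases hJ i with h | h
    · exact ⟨1, Or.inl rfl, by rw [h, one_smul]⟩
    · exact ⟨-1, Or.inr rfl, by rw [h, neg_smul, one_smul]⟩
  choose s hs1 hs2 using hs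
  let σ := Bool × (Σ i, Fin (N i) × Fin (N i))
  let W : ∀ {R : Type}, (σ → R) → Bool → ∀ i, Matrix (Fin (N i)) (Fin (N i)) R :=
    fun z c i => Matrix.of fun a b => z (c, ⟨i, (a, b)⟩)
  have hWmap : ∀ {R R' : Type} (φ : R → R') (z : σ → R) (c : Bool) (i : ι),
      (W z c i).map φ = W (fun x => φ (z x)) c i := fun φ z c i => rfl
  let U : Bool → ∀ i, Matrix (Fin (N i)) (Fin (N i)) (MvPolynomial σ L) :=
    fun c i => XX C (s i) (J i)⁻¹ (W (fun x => X x) c i)
  let y : (Σ i, Fin (N i) × Fin (N i)) → MvPolynomial σ L :=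
    fun x => NUM (U false x.1) (U true x.1) x.2.1 x.2.2
  let D : (Σ i, Fin (N i) × Fin (N i)) → MvPolynomial σ L :=
    fun x => DEN (U false x.1) (U true x.1)
  have hU : ∀ (z : σ → L) c i, (U c i).map (eval z) =
      XX (RingHom.id L) (s i) (J i)⁻¹ (W z c i) := by
    intro z c i
    have h1 := XX_map (C : L →+* MvPolynomial σ L) (eval z) (s i) (J i)⁻¹
      (W (fun x => (X x : MvPolynomial σ L)) c i)
    have h2 : (eval z).comp (C : L →+* MvPolynomial σ L) = RingHom.id L := by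
      ext a
      simp
    rw [h2, hWmap] at h1
    simp only [eval_X] at h1
    exact h1
  have hy : ∀ (z : σ → L) x, eval z (y x) =
      NUM (XX (RingHom.id L) (s x.1) (J x.1)⁻¹ (W z false x.1))
        (XX (RingHom.id L) (s x.1) (J x.1)⁻¹ (W z true x.1)) x.2.1 x.2.2 := by
    intro z x
    rw [← hU, ← hU, ← NUM_map]
    rfl
  have hD : ∀ (z : σ → L) x, eval z (D x) =
      DEN (XX (RingHom.id L) (s x.1) (J x.1)⁻¹ (W z false x.1))
        (XX (RingHom.id L) (s x.1) (J x.1)⁻¹ (W z true x.1)) := by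
    intro z x
    rw [← hU, ← hU, ← DEN_map]
  refine ⟨y, D, fun x => ?_, fun z hz => ?_, fun g hg hgdet => ?_⟩
  · rw [hD]
    have h1 : ∀ c, W (0 : σ → L) c x.1 = 0 := fun c => rfl
    rw [h1, h1, XX_zero, DEN_zero]
    exact one_ne_zero
  · -- a point of the variety; an index without entries needs no condition
    have hz' : ∀ i, (1 - XX (RingHom.id L) (s i) (J i)⁻¹ (W z false i)).det ≠ 0 ∧
        (1 - XX (RingHom.id L) (s i) (J i)⁻¹ (W z true i)).det ≠ 0 := by
      intro i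
      rcases Nat.eq_zero_or_pos (N i) with h0 | h0
      · haveI : IsEmpty (Fin (N i)) := by rw [h0]; infer_instance
        constructor <;> rw [det_isEmpty] <;> exact one_ne_zero
      · have h1 := hz ⟨i, (⟨0, h0⟩, ⟨0, h0⟩)⟩
        rw [hD] at h1
        exact ⟨left_ne_zero_of_mul h1, right_ne_zero_of_mul h1⟩
    have hl : ∀ c i, (XX (RingHom.id L) (s i) (J i)⁻¹ (W z c i))ᵀ * J i +
        J i * XX (RingHom.id L) (s i) (J i)⁻¹ (W z c i) = 0 := by
      intro c i
      have h1 := XX_lie (RingHom.id L) (s i) (hs1 i) (J i) (hs2 i) (hdet i) (W z c i)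
      have h2 : (J i).map (RingHom.id L) = J i := by
        ext a b
        rfl
      rw [h2] at h1
      exact h1
    refine ⟨fun i => (1 - XX (RingHom.id L) (s i) (J i)⁻¹ (W z false i))⁻¹ *
      (1 + XX (RingHom.id L) (s i) (J i)⁻¹ (W z false i)) *
      ((1 - XX (RingHom.id L) (s i) (J i)⁻¹ (W z true i))⁻¹ *
      (1 + XX (RingHom.id L) (s i) (J i)⁻¹ (W z true i))), fun i => ?_, fun i => ?_, ?_⟩
    · have c1 := cay_iso (J i) _ (hz' i).1 (hl false i)
      have c2 := cay_iso (J i) _ (hz' i).2 (hl true i)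
      rw [Matrix.transpose_mul]
      set A := (1 - XX (RingHom.id L) (s i) (J i)⁻¹ (W z false i))⁻¹ *
        (1 + XX (RingHom.id L) (s i) (J i)⁻¹ (W z false i)) with hA
      set B := (1 - XX (RingHom.id L) (s i) (J i)⁻¹ (W z true i))⁻¹ *
        (1 + XX (RingHom.id L) (s i) (J i)⁻¹ (W z true i)) with hB
      calc Bᵀ * Aᵀ * J i * (A * B) = Bᵀ * (Aᵀ * J i * A) * B := by noncomm_ring
        _ = J i := by rw [c1, c2]
    · rw [det_mul, cay_det (hdet i) (hl false i) (hz' i).1, cay_det (hdet i) (hl true i) (hz' i).2,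
        one_mul]
    · funext x
      rw [hy, hD]
      beta_reduce
      rw [cay_eq, Matrix.smul_apply, smul_eq_mul, div_eq_inv_mul]
  · have hdec : ∀ i, ∃ w v : Matrix (Fin (N i)) (Fin (N i)) L,
        (1 - XX (RingHom.id L) (s i) (J i)⁻¹ w).det ≠ 0 ∧
        (1 - XX (RingHom.id L) (s i) (J i)⁻¹ v).det ≠ 0 ∧
        g i = (1 - XX (RingHom.id L) (s i) (J i)⁻¹ w)⁻¹ *
          (1 + XX (RingHom.id L) (s i) (J i)⁻¹ w) *
          ((1 - XX (RingHom.id L) (s i) (J i)⁻¹ v)⁻¹ *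
          (1 + XX (RingHom.id L) (s i) (J i)⁻¹ v)) := by
      intro i
      have hid : (J i).map (RingHom.id L) = J i := by
        ext a b
        rfl
      obtain ⟨P, Y, hP, hY, hP1, hY1, hgi⟩ := cay2 L (N i) (J i) (g i) (hJ i) (hdet i) (hg i)
        (hgdet i)
      obtain ⟨w, hw⟩ := XX_surj (RingHom.id L) (s i) (hs1 i) (J i) (hs2 i) (hdet i) P
        (by rw [hid]; exact hP)
      obtain ⟨v, hv⟩ := XX_surj (RingHom.id L) (s i) (hs1 i) (J i) (hs2 i) (hdet i) Y
        (by rw [hid]; exact hY)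
      exact ⟨w, v, by rw [hw]; exact hP1, by rw [hv]; exact hY1, by rw [hw, hv]; exact hgi⟩
    choose w v hw hv hgi using hdec
    let z : σ → L := fun x => if x.1 then v x.2.1 x.2.2.1 x.2.2.2 else w x.2.1 x.2.2.1 x.2.2.2
    have hz1 : ∀ i, W z false i = w i := by
      intro i
      ext a b
      simp [W, z]
    have hz2 : ∀ i, W z true i = v i := by
      intro i
      ext a b
      simp [W, z]
    refine ⟨z, fun x => ?_, ?_⟩
    · rw [hD, hz1, hz2]
      exact mul_ne_zero (hw x.1) (hv x.1)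
    · funext x
      rw [hy, hD, hz1, hz2, hgi x.1, cay_eq, Matrix.smul_apply, smul_eq_mul, div_eq_inv_mul]

/-- vanishing on all families of isometries of determinant one -/
def Van (J : ∀ i, Matrix (Fin (N i)) (Fin (N i)) L) (f : Pf L N) : Prop :=
  ∀ x : ∀ i, Matrix (Fin (N i)) (Fin (N i)) L, (∀ i, (x i)ᵀ * J i * x i = J i) →
    (∀ i, (x i).det = 1) → evf x f = 0

/-- irreducibility -/
theorem irr (hJ : ∀ i, (J i)ᵀ = J i ∨ (J i)ᵀ = -J i) (hdet : ∀ i, (J i).det ≠ 0)
    {f₁ f₂ : Pf L N} (h : Van J (f₁ * f₂)) : Van J f₁ ∨ Van J f₂ := by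
  classical
  obtain ⟨y, D, hD0, hin, hsur⟩ := param hJ hdet
  obtain ⟨p₁, q₁, h₁⟩ := clear y D f₁
  obtain ⟨p₂, q₂, h₂⟩ := clear y D f₂
  have hprod : p₁ * p₂ * ∏ x, D x = 0 := by
    refine MvPolynomial.funext fun z => ?_
    rw [map_mul, map_mul, map_prod, map_zero]
    by_cases hz : ∀ x, eval z (D x) ≠ 0
    · obtain ⟨g, hg, hgd, hgz⟩ := hin z hz
      have h3 := (h₁ z hz).2
      have h4 := (h₂ z hz).2
      rw [hgz] at h3 h4
      have h5 : evf g (f₁ * f₂) = 0 := h g hg hgd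
      rw [map_mul] at h5
      have h6 : eval (fun x : (Σ i, Fin (N i) × Fin (N i)) => g x.1 x.2.1 x.2.2) f₁ *
        eval (fun x : (Σ i, Fin (N i) × Fin (N i)) => g x.1 x.2.1 x.2.2) f₂ = 0 := h5
      rw [h3, h4]
      calc _ = eval z q₁ * eval z q₂ * (eval (fun x : (Σ i, Fin (N i) × Fin (N i)) =>
            g x.1 x.2.1 x.2.2) f₁ * eval (fun x : (Σ i, Fin (N i) × Fin (N i)) =>
            g x.1 x.2.1 x.2.2) f₂) * ∏ x, eval z (D x) := by ring
        _ = 0 := by rw [h6, mul_zero, zero_mul]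
    · push Not at hz
      obtain ⟨x, hx⟩ := hz
      rw [Finset.prod_eq_zero (Finset.mem_univ x) hx, mul_zero]
  have hD : (∏ x, D x) ≠ 0 := by
    rw [Finset.prod_ne_zero_iff]
    intro x _ hx
    apply hD0 x
    rw [hx, map_zero]
  have key : ∀ (f : Pf L N) (p q : MvPolynomial (Bool × (Σ i, Fin (N i) × Fin (N i))) L),
      (∀ z, (∀ x, eval z (D x) ≠ 0) →
        eval z q ≠ 0 ∧ eval z p = eval z q * eval (fun x => eval z (y x) / eval z (D x)) f) →
      p = 0 → Van J f := by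
    intro f p q hpq hp g hg hgd
    obtain ⟨z, hz, hgz⟩ := hsur g hg hgd
    obtain ⟨h3, h4⟩ := hpq z hz
    rw [hgz, hp, map_zero] at h4
    exact (mul_eq_zero.1 h4.symm).resolve_left h3
  rcases mul_eq_zero.1 ((mul_eq_zero.1 hprod).resolve_right hD) with h3 | h3
  · exact Or.inl (key f₁ p₁ q₁ h₁ h3)
  · exact Or.inr (key f₂ p₂ q₂ h₂ h3)

theorem irr_prod (hJ : ∀ i, (J i)ᵀ = J i ∨ (J i)ᵀ = -J i) (hdet : ∀ i, (J i).det ≠ 0)
    {α : Type} (s : Finset α) (F : α → Pf L N) (h : Van J (∏ a ∈ s, F a)) :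
    ∃ a ∈ s, Van J (F a) := by
  classical
  induction s using Finset.induction_on with
  | empty =>
    exfalso
    have h1 := h (fun i => 1) (fun i => by rw [transpose_one, one_mul, mul_one])
      (fun i => det_one)
    rw [Finset.prod_empty, map_one] at h1
    exact one_ne_zero h1
  | insert a s ha ih =>
    rw [Finset.prod_insert ha] at h
    rcases irr hJ hdet h with h1 | h1
    · exact ⟨a, Finset.mem_insert_self a s, h1⟩
    · obtain ⟨b, hb, h2⟩ := ih h1
      exact ⟨b, Finset.mem_insert_of_mem hb, h2⟩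

end

end

end Pool.Agent.R932.GR
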