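import Pool.Agent.R932.GR.Mtc
import Pool.Agent.R932.PO.Fin2

/-!
# The motivic Tate conjecture from one prime
-/

set_option autoImplicit false
set_option linter.unusedSectionVars false
set_option linter.style.haveILetI false

open Matrix Filter Topology NumberField IsDedekindDomain
open Pool.Agent.Y142.ZO Pool.Agent.Y142.ZS
open Pool.Agent.R932.PO (JTan IsForm Kind Fits Allows Sys JL det_map_ne)
open Pool.Agent.R932.EV (SS SC)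

namespace Pool.Agent.R932.GR

noncomputable section

section
variable {ι : Type} {N : ι → ℕ}

/-- the value of a rational polynomial at a family -/
def val {F : Type} [Field F] [Algebra ℚ F] (f : Pf ℚ N)
    (g : ∀ i, Matrix (Fin (N i)) (Fin (N i)) F) : F :=
  MvPolynomial.aeval (fun x : (Σ i, Fin (N i) × Fin (N i)) => g x.1 x.2.1 x.2.2) f

theorem val_map {F F' : Type} [Field F] [Algebra ℚ F] [Field F'] [Algebra ℚ F'] (φ : F →+* F')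
    (f : Pf ℚ N) (g : ∀ i, Matrix (Fin (N i)) (Fin (N i)) F) :
    val f (fun i => (g i).map φ) = φ (val f g) := by
  unfold val
  rw [MvPolynomial.aeval_def, MvPolynomial.aeval_def, MvPolynomial.eval₂_comp_left φ]
  have h4 : φ.comp (algebraMap ℚ F) = algebraMap ℚ F' := Subsingleton.elim _ _
  rw [h4]
  rfl

theorem evf_val {F : Type} [Field F] [Algebra ℚ F] (f : Pf ℚ N)
    (g : ∀ i, Matrix (Fin (N i)) (Fin (N i)) F) :
    evf g (MvPolynomial.map (algebraMap ℚ F) f) = val f g := by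
  unfold evf val
  rw [MvPolynomial.eval_map, MvPolynomial.aeval_def]

/-- the Zariski closure of the image is the group given by the polynomials in `Pol` -/
def MTate {ℓ : ℕ} [Fact ℓ.Prime] {Γ : Type} [Group Γ] (Pol : Set (Pf ℚ N))
    (ρ : ∀ i, Γ →* Matrix (Fin (N i)) (Fin (N i)) ℚ_[ℓ]) : Prop :=
  ∀ g : ∀ i, Matrix (Fin (N i)) (Fin (N i)) (Lc ℓ), (∀ i, (g i).det ≠ 0) →
    ((∀ f : Pf (Lc ℓ) N, (∀ σ, evf (up fun i => ρ i σ) f = 0) → evf g f = 0) ↔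
      ∀ f ∈ Pol, val f g = 0)

end

theorem det_charpoly {F : Type} [Field F] {n : ℕ} (A : Matrix (Fin n) (Fin n) F)
    {P : Polynomial ℚ} [Algebra ℚ F] (h : A.charpoly = P.map (algebraMap ℚ F)) :
    A.det = algebraMap ℚ F ((-1) ^ n * P.coeff 0) := by
  rw [Matrix.det_eq_sign_charpoly_coeff, h, Polynomial.coeff_map, Fintype.card_fin, map_mul, map_pow,
    map_neg, map_one]

section
variable {K : Type} [Field K] [NumberField K] {ι : Type} [Fintype ι] [DecidableEq ι] {N w : ι → ℕ}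
  {Γ : Type} [Group Γ] [TopologicalSpace Γ] [IsTopologicalGroup Γ] [CompactSpace Γ]
  {S : Set (HeightOneSpectrum (𝓞 K))} {P : ι → HeightOneSpectrum (𝓞 K) → Polynomial ℚ}
  {kd : ι → Kind} {s : GK K →* Γ}

/-- **from the full joint Lie algebra at `ℓ` and the components at `ℓ₀` to the group at `ℓ`** -/
theorem group_at (hS : S.Finite) (J : ∀ i, Matrix (Fin (N i)) (Fin (N i)) ℚ)
    (hfit : ∀ i, Fits (kd i) (J i)) (hdet : ∀ i, (J i).det ≠ 0) (hw : ∀ i, (J i)ᵀ = J i → w i = 0)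
    (ℓ : ℕ) [hℓ : Fact ℓ.Prime] (κ : Γ →* ℚ_[ℓ])
    (hκ : ∀ v ∉ S, (ℓ : 𝓞 K) ∉ v.asIdeal → ∀ σ : GK K, IsFrobenius v σ →
      κ (s σ⁻¹) = (Ideal.absNorm v.asIdeal : ℚ_[ℓ]))
    (ρ : ∀ i : ι, Γ →* Matrix (Fin (N i)) (Fin (N i)) ℚ_[ℓ]) (hρc : ∀ i : ι, Continuous (ρ i))
    (hmult : ∀ (i : ι) (g : Γ), Sim (JL J ℓ i) (ρ i g) (κ g ^ w i))
    (hfrob : ∀ i : ι, ∀ v ∉ S, (ℓ : 𝓞 K) ∉ v.asIdeal → ∀ σ : GK K,
      IsFrobenius v σ → (ρ i (s σ⁻¹)).charpoly = (P i v).map (algebraMap ℚ ℚ_[ℓ]))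
    (Pol : Set (Pf ℚ N))
    (hpol : ∀ g : ∀ i, Matrix (Fin (N i)) (Fin (N i)) (Lc ℓ), (∀ i, (g i).det ≠ 0) →
      (∀ f ∈ Pol, val f g = 0) → ∃ t : Lc ℓ, t ≠ 0 ∧ ∀ i, Sim (up (JL J ℓ) i) (g i) (t ^ w i))
    (hgal : ∀ σ : Γ, ∀ f ∈ Pol, val f (fun i => ρ i σ) = 0)
    (ℓ₀ : ℕ) [hℓ₀ : Fact ℓ₀.Prime] (ρ₀ : ∀ i : ι, GK K →* Matrix (Fin (N i)) (Fin (N i)) ℚ_[ℓ₀])
    (hρc₀ : ∀ i : ι, Continuous (ρ₀ i))
    (hiso₀ : ∀ (i : ι), (J i)ᵀ = J i → ∀ (g : GK K), Sim (JL J ℓ₀ i) (ρ₀ i g) 1)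
    (hfrob₀ : ∀ i : ι, ∀ v ∉ S, (ℓ₀ : 𝓞 K) ∉ v.asIdeal → ∀ σ : GK K,
      IsFrobenius v σ → (ρ₀ i σ⁻¹).charpoly = (P i v).map (algebraMap ℚ ℚ_[ℓ₀]))
    (hcomp : ∀ g : ∀ i, Matrix (Fin (N i)) (Fin (N i)) (Lc ℓ₀), (∀ i, (g i).det ≠ 0) →
      (∀ f ∈ Pol, val f g = 0) → Cl ρ₀ ⊤ g)
    (hfull : ∀ X, (∀ i, SpLie (JL J ℓ i) (X i)) → JTan ℓ ρ X) :
    MTate Pol ρ := by
  classical
  have hform : ∀ i : ι, IsForm (JL J ℓ i) := fun i =>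
    ((hfit i).map (algebraMap ℚ ℚ_[ℓ])).isForm (det_map_ne (algebraMap ℚ ℚ_[ℓ]) (hdet i))
  have hsymL : ∀ i : ι, (JL J ℓ i)ᵀ = JL J ℓ i → (J i)ᵀ = J i := by
    intro i h
    ext p q
    have h1 := congrFun (congrFun h p) q
    exact (algebraMap ℚ ℚ_[ℓ]).injective h1
  intro g hg
  constructor
  · intro hcl f hf
    rw [← evf_val]
    refine hcl _ fun σ => ?_
    rw [evf_val]
    have h1 := val_map (algebraMap ℚ_[ℓ] (Lc ℓ)) f (fun i => ρ i σ)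
    rw [hgal σ f hf, map_zero] at h1
    exact h1
  · intro hPol f hf
    obtain ⟨t, ht, hgt⟩ := hpol g hg hPol
    -- the determinants
    obtain ⟨φ⟩ := emb2 ℓ ℓ₀
    have hpm : ∀ i, (J i)ᵀ = J i → ∀ σ, (ρ₀ i σ).det = 1 ∨ (ρ₀ i σ).det = -1 := by
      intro i hi σ
      have h1 := hiso₀ i hi σ
      unfold Sim at h1
      rw [one_smul] at h1
      have h2 := congrArg Matrix.det h1
      rw [det_mul, det_mul, det_transpose] at h2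
      have h3 : (JL J ℓ₀ i).det ≠ 0 := det_map_ne (algebraMap ℚ ℚ_[ℓ₀]) (hdet i)
      have h4 : (ρ₀ i σ).det * (ρ₀ i σ).det = 1 := by
        have h5 : (JL J ℓ₀ i).det * ((ρ₀ i σ).det * (ρ₀ i σ).det - 1) = 0 := by
          linear_combination h2
        exact sub_eq_zero.1 ((mul_eq_zero.1 h5).resolve_left h3)
      exact mul_self_eq_one_iff.1 h4
    obtain ⟨τ, hτ⟩ := dets (ρ := ρ₀) (fun i => (J i)ᵀ = J i) hpm
      (hcomp (fun i => (g i).map φ) (fun i => by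
        have h1 : ((g i).map φ).det = φ (g i).det := by
          rw [RingHom.map_det, RingHom.mapMatrix_apply]
        rw [h1]
        exact (map_ne_zero φ).2 (hg i)) (fun f hf => by
        rw [val_map, hPol f hf, map_zero]))
    let O : Set (GK K) := {σ | ∀ i, (J i)ᵀ = J i → (ρ₀ i σ).det ≠ -(ρ₀ i τ).det}
    have hO : IsOpen O := by
      have h1 : O = ⋂ i : ι, {σ | (J i)ᵀ = J i → (ρ₀ i σ).det ≠ -(ρ₀ i τ).det} := by
        ext σ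
        simp only [Set.mem_iInter]
        rfl
      rw [h1]
      refine isOpen_iInter_of_finite fun i => ?_
      by_cases hi : (J i)ᵀ = J i
      · have h2 : {σ | (J i)ᵀ = J i → (ρ₀ i σ).det ≠ -(ρ₀ i τ).det} =
            {σ | (ρ₀ i σ).det ≠ -(ρ₀ i τ).det} := by
          ext σ
          exact ⟨fun h => h hi, fun h _ => h⟩
        rw [h2]
        exact isOpen_ne_fun (hρc₀ i).matrix_det continuous_const
      · have h2 : {σ : GK K | (J i)ᵀ = J i → (ρ₀ i σ).det ≠ -(ρ₀ i τ).det} = Set.univ := by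
          ext σ
          exact ⟨fun _ => trivial, fun _ h => absurd h hi⟩
        rw [h2]
        exact isOpen_univ
    have hne : O.Nonempty := by
      refine ⟨τ, fun i hi h => ?_⟩
      have h1 : (2 : ℚ_[ℓ₀]) * (ρ₀ i τ).det = 0 := by linear_combination h
      rcases mul_eq_zero.1 h1 with h2 | h2
      · exact two_ne_zero h2
      · rcases hpm i hi τ with h3 | h3
        · rw [h3] at h2
          exact one_ne_zero h2
        · rw [h3] at h2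
          exact one_ne_zero (neg_eq_zero.1 h2)
    obtain ⟨v, hv, σ', hσ', hσO⟩ := Y405.ZO.t K O hO hne
      (S ∪ ({v | (ℓ : 𝓞 K) ∈ v.asIdeal} ∪ {v | (ℓ₀ : 𝓞 K) ∈ v.asIdeal}))
      (hS.union ((finite_above ℓ hℓ.out).union (finite_above ℓ₀ hℓ₀.out)))
    have hvS : v ∉ S := fun h => hv (Or.inl h)
    have hvℓ : (ℓ : 𝓞 K) ∉ v.asIdeal := fun h => hv (Or.inr (Or.inl h))
    have hvℓ₀ : (ℓ₀ : 𝓞 K) ∉ v.asIdeal := fun h => hv (Or.inr (Or.inr h))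
    have hdets : ∀ i, (J i)ᵀ = J i →
        (g i).det = algebraMap ℚ_[ℓ] (Lc ℓ) (ρ i (s σ'⁻¹)).det := by
      intro i hi
      have h1 : (ρ₀ i σ'⁻¹).det = (ρ₀ i τ).det := by
        rcases hpm i hi σ'⁻¹ with h3 | h3 <;> rcases hpm i hi τ with h4 | h4
        · rw [h3, h4]
        · exact absurd (by rw [h3, h4, neg_neg]) (hσO i hi)
        · exact absurd (by rw [h3, h4]) (hσO i hi)
        · rw [h3, h4]
      have h2 := det_charpoly _ (hfrob₀ i v hvS hvℓ₀ σ' hσ')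
      have h3 := det_charpoly _ (hfrob i v hvS hvℓ σ' hσ')
      have h4 := hτ i hi
      rw [← h1, h2] at h4
      have h5 : ((g i).map φ).det = φ (g i).det := by
        rw [RingHom.map_det, RingHom.mapMatrix_apply]
      rw [h5] at h4
      apply φ.injective
      rw [h4, h3]
      have h6 : ∀ r : ℚ, algebraMap ℚ_[ℓ₀] (Lc ℓ₀) (algebraMap ℚ ℚ_[ℓ₀] r) =
          φ (algebraMap ℚ_[ℓ] (Lc ℓ) (algebraMap ℚ ℚ_[ℓ] r)) := by
        intro r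
        have h7 : (algebraMap ℚ_[ℓ₀] (Lc ℓ₀)).comp (algebraMap ℚ ℚ_[ℓ₀]) =
            φ.comp ((algebraMap ℚ_[ℓ] (Lc ℓ)).comp (algebraMap ℚ ℚ_[ℓ])) := Subsingleton.elim _ _
        exact RingHom.congr_fun h7 r
      exact h6 _
    refine closure_mem (J := JL J ℓ) hρc hform (fun i h => hw i (hsymL i h)) hmult ?_ hfull hf ht
      hgt (σ₁ := s σ'⁻¹) (fun i h => hdets i (hsymL i h))
    refine ⟨s σ'⁻¹, fun k hk h => ?_⟩
    rw [hκ v hvS hvℓ σ' hσ'] at h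
    have h1 : (Ideal.absNorm v.asIdeal) ^ k = 1 := by exact_mod_cast h
    have h2 : Ideal.absNorm v.asIdeal = 1 := by
      rcases Nat.pow_eq_one.1 h1 with h3 | h3
      · exact h3
      · omega
    exact v.isPrime.ne_top (Ideal.absNorm_eq_one_iff.1 h2)

/-- **the motivic Tate conjecture from one prime** -/
theorem mtate_main (hS : S.Finite) (hs : Continuous s)
    (J : ∀ i, Matrix (Fin (N i)) (Fin (N i)) ℚ)
    (hfit : ∀ i, Fits (kd i) (J i)) (hdet : ∀ i, (J i).det ≠ 0) (hw : ∀ i, (J i)ᵀ = J i → w i = 0)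
    (κ : ∀ (ℓ : ℕ) [Fact ℓ.Prime], Γ →* ℚ_[ℓ])
    (hκ : ∀ (ℓ : ℕ) [Fact ℓ.Prime], ∀ v ∉ S, (ℓ : 𝓞 K) ∉ v.asIdeal → ∀ σ : GK K, IsFrobenius v σ →
      κ ℓ (s σ⁻¹) = (Ideal.absNorm v.asIdeal : ℚ_[ℓ]))
    (ρ : ∀ (i : ι) (ℓ : ℕ) [Fact ℓ.Prime], Γ →* Matrix (Fin (N i)) (Fin (N i)) ℚ_[ℓ])
    (hρc : ∀ (i : ι) (ℓ : ℕ) [Fact ℓ.Prime], Continuous (ρ i ℓ))
    (hmult : ∀ (i : ι) (ℓ : ℕ) [Fact ℓ.Prime] (g : Γ),
      Sim (JL J ℓ i) (ρ i ℓ g) (κ ℓ g ^ w i))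
    (hfrob : ∀ (i : ι) (ℓ : ℕ) [Fact ℓ.Prime], ∀ v ∉ S, (ℓ : 𝓞 K) ∉ v.asIdeal → ∀ σ : GK K,
      IsFrobenius v σ → (ρ i ℓ (s σ⁻¹)).charpoly = (P i v).map (algebraMap ℚ ℚ_[ℓ]))
    (Pol : Set (Pf ℚ N))
    (hpol : ∀ (ℓ : ℕ) [Fact ℓ.Prime] (g : ∀ i, Matrix (Fin (N i)) (Fin (N i)) (Lc ℓ)),
      (∀ i, (g i).det ≠ 0) → (∀ f ∈ Pol, val f g = 0) →
      ∃ t : Lc ℓ, t ≠ 0 ∧ ∀ i, Sim (up (JL J ℓ) i) (g i) (t ^ w i))
    (hgal : ∀ (ℓ : ℕ) [Fact ℓ.Prime] (σ : Γ), ∀ f ∈ Pol, val f (fun i => ρ i ℓ σ) = 0)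
    (ℓ₀ : ℕ) [hℓ₀ : Fact ℓ₀.Prime] (hal : ∀ i, Allows (kd i) (N i) ℓ₀ (JL J ℓ₀ i))
    (hbig : ∀ g : ∀ i, Matrix (Fin (N i)) (Fin (N i)) (Lc ℓ₀),
      (∀ i, (g i)ᵀ * up (JL J ℓ₀) i * g i = up (JL J ℓ₀) i) → (∀ i, (g i).det = 1) →
      ∀ f ∈ Pol, val f g = 0)
    (hone : MTate Pol (fun i => (ρ i ℓ₀).comp s)) :
    Y142.ZI.DensityZero {ℓ | ∃ _ : Fact ℓ.Prime, ¬ MTate Pol (fun i => ρ i ℓ)} ∧
    ∀ (ℓ : ℕ) [Fact ℓ.Prime], (∀ i, SS (ρ i ℓ)) → (∀ i, SC (ρ i ℓ)) →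
      MTate Pol (fun i => ρ i ℓ) := by
  classical
  have hfitL : ∀ (ℓ : ℕ) [Fact ℓ.Prime] (i : ι), Fits (kd i) (JL J ℓ i) := fun ℓ _ i =>
    (hfit i).map (algebraMap ℚ ℚ_[ℓ])
  have hdetL : ∀ (ℓ : ℕ) [Fact ℓ.Prime] (i : ι), (JL J ℓ i).det ≠ 0 := fun ℓ _ i =>
    det_map_ne (algebraMap ℚ ℚ_[ℓ]) (hdet i)
  have hform : ∀ (ℓ : ℕ) [Fact ℓ.Prime] (i : ι), IsForm (JL J ℓ i) := fun ℓ _ i =>
    (hfitL ℓ i).isForm (hdetL ℓ i)
  have hsymL : ∀ (ℓ : ℕ) [Fact ℓ.Prime] (i : ι), (JL J ℓ i)ᵀ = JL J ℓ i → w i = 0 := by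
    intro ℓ _ i h
    refine hw i ?_
    ext p q
    have h1 := congrFun (congrFun h p) q
    exact (algebraMap ℚ ℚ_[ℓ]).injective h1
  have hsys : ∀ (i : ι) (ℓ : ℕ) [Fact ℓ.Prime], Sys s (kd i) (N i) ℓ (ρ i ℓ)
      (JL J ℓ i) S (P i) (fun v => (Ideal.absNorm v.asIdeal : ℚ) ^ w i) := by
    intro i ℓ _
    refine ⟨hρc i ℓ, hfitL ℓ i, hdetL ℓ i, fun γ => ⟨κ ℓ γ ^ w i, hmult i ℓ γ, fun h => ?_⟩, ?_⟩
    · rw [hsymL ℓ i h, pow_zero]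
    · intro v hv hvℓ σ hσ
      refine ⟨hfrob i ℓ v hv hvℓ σ hσ, ?_⟩
      have h1 : Sim (JL J ℓ i) (ρ i ℓ (s σ⁻¹)) (κ ℓ (s σ⁻¹) ^ w i) := hmult i ℓ (s σ⁻¹)
      rw [hκ ℓ v hv hvℓ σ hσ] at h1
      show (ρ i ℓ (s σ⁻¹))ᵀ * JL J ℓ i * ρ i ℓ (s σ⁻¹) =
        (((Ideal.absNorm v.asIdeal : ℚ) ^ w i : ℚ) : ℚ_[ℓ]) • JL J ℓ i
      rw [Rat.cast_pow, Rat.cast_natCast]
      exact h1
  have hpos : ∀ i, 0 < N i := fun i => (hfit i).pos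
  -- the prime `ℓ₀`
  have hall : ∀ f : Pf (Lc ℓ₀) N, (∀ σ : GK K, evf (up fun i => (ρ i ℓ₀).comp s σ) f = 0) →
      Van (up (JL J ℓ₀)) f := by
    intro f hf x hx hxd
    exact (hone x (fun i => by rw [hxd i]; exact one_ne_zero)).2 (hbig x hx hxd) f hf
  have hfull₀ : ∀ X, (∀ i, SpLie (JL J ℓ₀ i) (X i)) →
      JTan ℓ₀ (fun i => (ρ i ℓ₀).comp s) X := by
    intro X hX
    exact joint_of_zar (G := GK K) (ρ := fun i => (ρ i ℓ₀).comp s)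
      (fun i => (hρc i ℓ₀).comp hs) (hform ℓ₀) hpos (fun i g => ⟨_, hmult i ℓ₀ (s g)⟩)
      (zarF_of (ρ := fun i => (ρ i ℓ₀).comp s) (fun i => form_symm (hform ℓ₀ i))
        (fun i => hdetL ℓ₀ i) hall) X hX
  have hsev := PO.several (K := K) PO.tasks hs hS ρ (fun i ℓ _ => JL J ℓ i) hsys ℓ₀ hal hfull₀
  have hconc : ∀ (ℓ : ℕ) [Fact ℓ.Prime],
      (∀ X, (∀ i, SpLie (JL J ℓ i) (X i)) → JTan ℓ (fun i => ρ i ℓ) X) →
      MTate Pol (fun i => ρ i ℓ) := by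
    intro ℓ _ hf
    refine group_at hS J hfit hdet hw ℓ (κ ℓ) (hκ ℓ) (fun i => ρ i ℓ) (fun i => hρc i ℓ)
      (fun i g => hmult i ℓ g) (fun i => hfrob i ℓ) Pol (hpol ℓ) (hgal ℓ) ℓ₀
      (fun i => (ρ i ℓ₀).comp s) (fun i => (hρc i ℓ₀).comp hs) (fun i hi g => ?_)
      (fun i => hfrob i ℓ₀) (fun g hg hPol f hf => ?_) hf
    · have h1 := hmult i ℓ₀ (s g)
      rw [hw i hi, pow_zero] at h1
      exact h1
    · exact (hone g hg).2 hPol f fun σ => hf σ (Subgroup.mem_top σ)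
  constructor
  · refine Y142.ZI.DensityZero.mono hsev.1 ?_
    rintro ℓ ⟨hp, hno⟩
    refine ⟨hp, fun hall' => hno (hconc ℓ fun X hX => ?_)⟩
    obtain ⟨σ, hσ⟩ := hall' X hX
    exact ⟨fun k => s (σ k), hσ⟩
  · intro ℓ _ hss hsc
    exact hconc ℓ fun X hX => hsev.2 ℓ hss hsc X hX

end

end

end Pool.Agent.R932.GR
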