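import Pool.Agent.R932.GR.Irr

/-!
# The identity component and the determinants, from the Zariski closure of the whole image
-/

set_option autoImplicit false
set_option linter.unusedSectionVars false
set_option linter.style.haveILetI false

open Matrix Filter Topology NumberField IsDedekindDomain
open Pool.Agent.Y142.ZO Pool.Agent.Y142.ZS
open Pool.Agent.R932.PO (JTan IsForm)

namespace Pool.Agent.R932.GR

noncomputable section

section comp
variable {ℓ : ℕ} [hℓ : Fact ℓ.Prime] {ι : Type} [Fintype ι] [DecidableEq ι] {N : ι → ℕ}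
  {Γ : Type} [Group Γ]
  {ρ : ∀ i, Γ →* Matrix (Fin (N i)) (Fin (N i)) ℚ_[ℓ]}
  {J : ∀ i, Matrix (Fin (N i)) (Fin (N i)) ℚ_[ℓ]}

/-- substitution of a right translation -/
def trr (A : ∀ i, Matrix (Fin (N i)) (Fin (N i)) (Lc ℓ)) : Pf (Lc ℓ) N →ₐ[Lc ℓ] Pf (Lc ℓ) N :=
  MvPolynomial.aeval fun x => ∑ c, MvPolynomial.X ⟨x.1, x.2.1, c⟩ * MvPolynomial.C (A x.1 c x.2.2)

theorem evf_trr (A y : ∀ i, Matrix (Fin (N i)) (Fin (N i)) (Lc ℓ)) (f : Pf (Lc ℓ) N) :
    evf y (trr A f) = evf (fun i => y i * A i) f := by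
  unfold trr evf
  rw [MvPolynomial.aeval_def, MvPolynomial.eval₂_eq', map_sum, MvPolynomial.eval_eq']
  refine Finset.sum_congr rfl fun m _ => ?_
  rw [map_mul, map_prod]
  congr 1
  · show MvPolynomial.eval _ (MvPolynomial.C _) = _
    rw [MvPolynomial.eval_C]
  · refine Finset.prod_congr rfl fun x _ => ?_
    rw [map_pow, map_sum]
    congr 1
    show _ = (y x.1 * A x.1) x.2.1 x.2.2
    rw [Matrix.mul_apply]
    refine Finset.sum_congr rfl fun c _ => ?_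
    rw [map_mul, MvPolynomial.eval_C, MvPolynomial.eval_X]

theorem up_rho_mul (σ τ : Γ) : (fun i => up (fun i => ρ i σ) i * up (fun i => ρ i τ) i) =
    up fun i => ρ i (σ * τ) := by
  funext i
  rw [up_apply, up_apply, up_apply, ← Matrix.map_mul, map_mul]

theorem up_rho_one : (up fun i => ρ i 1) =
    fun i => (1 : Matrix (Fin (N i)) (Fin (N i)) (Lc ℓ)) := by
  funext i
  rw [up_apply, map_one, Matrix.map_one _ (map_zero _) (map_one _)]

/-- the Zariski closure of the image of a subgroup -/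
def Cl (ρ : ∀ i, Γ →* Matrix (Fin (N i)) (Fin (N i)) ℚ_[ℓ]) (Δ : Subgroup Γ)
    (x : ∀ i, Matrix (Fin (N i)) (Fin (N i)) (Lc ℓ)) : Prop :=
  ∀ f : Pf (Lc ℓ) N, (∀ σ ∈ Δ, evf (up fun i => ρ i σ) f = 0) → evf x f = 0

theorem cl_rho {Δ : Subgroup Γ} {σ : Γ} (hσ : σ ∈ Δ) : Cl ρ Δ (up fun i => ρ i σ) :=
  fun _ hf => hf σ hσ

theorem cl_mul {Δ : Subgroup Γ} {x y : ∀ i, Matrix (Fin (N i)) (Fin (N i)) (Lc ℓ)}
    (hx : Cl ρ Δ x) (hy : Cl ρ Δ y) : Cl ρ Δ (fun i => x i * y i) := by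
  intro f hf
  have h1 : ∀ δ ∈ Δ, evf (fun i => up (fun i => ρ i δ) i * y i) f = 0 := by
    intro δ hδ
    rw [← evf_trl]
    refine hy _ fun σ hσ => ?_
    rw [evf_trl, up_rho_mul]
    exact hf _ (Δ.mul_mem hδ hσ)
  rw [← evf_trr]
  refine hx _ fun σ hσ => ?_
  rw [evf_trr]
  exact h1 σ hσ

/-- **the identity component**: if the Zariski closure of the whole image contains the isometries of
determinant one then so does the closure of the image of each subgroup of finite index -/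
theorem fin_index (hJ : ∀ i, (J i)ᵀ = J i ∨ (J i)ᵀ = -J i) (hdet : ∀ i, (J i).det ≠ 0)
    (hall : ∀ f : Pf (Lc ℓ) N, (∀ σ : Γ, evf (up fun i => ρ i σ) f = 0) → Van (up J) f)
    {Δ : Subgroup Γ} (hΔ : Δ.FiniteIndex) {f : Pf (Lc ℓ) N}
    (hf : ∀ σ ∈ Δ, evf (up fun i => ρ i σ) f = 0) : Van (up J) f := by
  classical
  have hJ' : ∀ i, (up J i)ᵀ = up J i ∨ (up J i)ᵀ = -up J i := by
    intro i
    rw [up_apply, ← Matrix.transpose_map]
    rcases hJ i with h | h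
    · left
      rw [h]
    · right
      rw [h]
      ext a b
      simp
  have hdet' : ∀ i, (up J i).det ≠ 0 := by
    intro i
    have h4 : (up J i).det = algebraMap ℚ_[ℓ] (Lc ℓ) (J i).det := by
      rw [RingHom.map_det, RingHom.mapMatrix_apply]
      rfl
    rw [h4]
    exact (map_ne_zero _).2 (hdet i)
  -- one of the cosets
  obtain ⟨τ, hτ⟩ : ∃ τ : Γ, ∀ F : Pf (Lc ℓ) N,
      (∀ δ ∈ Δ, evf (up fun i => ρ i (τ * δ)) F = 0) → Van (up J) F := by
    by_contra hcon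
    push Not at hcon
    choose F hF hFn using hcon
    haveI : Fintype (Γ ⧸ Δ) := Fintype.ofFinite _
    have h1 : Van (up J) (∏ q ∈ (Finset.univ : Finset (Γ ⧸ Δ)), F q.out) := by
      refine hall _ fun σ => ?_
      rw [map_prod]
      refine Finset.prod_eq_zero (Finset.mem_univ (QuotientGroup.mk σ : Γ ⧸ Δ)) ?_
      have h2 : ((QuotientGroup.mk σ : Γ ⧸ Δ).out)⁻¹ * σ ∈ Δ := by
        rw [← QuotientGroup.eq, QuotientGroup.out_eq']
      have h3 := hF ((QuotientGroup.mk σ : Γ ⧸ Δ).out) _ h2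
      rw [mul_inv_cancel_left] at h3
      exact h3
    obtain ⟨q, -, hq⟩ := irr_prod hJ' hdet' _ _ h1
    exact hFn _ hq
  have hu : ∀ x : ∀ i, Matrix (Fin (N i)) (Fin (N i)) (Lc ℓ), (∀ i, (x i)ᵀ * up J i * x i = up J i) →
      (∀ i, (x i).det = 1) → Cl ρ Δ (fun i => up (fun i => ρ i τ⁻¹) i * x i) := by
    intro x hx hxd F hF
    rw [← evf_trl]
    refine hτ _ (fun δ hδ => ?_) x hx hxd
    rw [evf_trl, up_rho_mul, inv_mul_cancel_left]
    exact hF δ hδ
  have hu1 : Cl ρ Δ (up fun i => ρ i τ⁻¹) := by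
    have h1 := hu (fun i => 1) (fun i => by rw [transpose_one, one_mul, mul_one]) (fun i => det_one)
    simp only [mul_one] at h1
    exact h1
  have hpow : ∀ k : ℕ, Cl ρ Δ (up fun i => ρ i (τ⁻¹ ^ k)) := by
    intro k
    induction k with
    | zero =>
      rw [pow_zero]
      exact cl_rho Δ.one_mem
    | succ k ih =>
      have h1 := cl_mul ih hu1
      rw [up_rho_mul, ← pow_succ] at h1
      exact h1
  have hτc : Cl ρ Δ (up fun i => ρ i τ) := by
    obtain ⟨m, hm0, -, hm⟩ := Δ.exists_pow_mem_of_index_ne_zero hΔ.index_ne_zero τ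
    have h1 := cl_mul (cl_rho hm : Cl ρ Δ (up fun i => ρ i (τ ^ m))) (hpow (m - 1))
    rw [up_rho_mul] at h1
    have h2 : τ ^ m * τ⁻¹ ^ (m - 1) = τ := by
      obtain ⟨k, rfl⟩ := Nat.exists_eq_succ_of_ne_zero hm0.ne'
      rw [Nat.succ_sub_one, pow_succ', mul_assoc, inv_pow, mul_inv_cancel, mul_one]
    rw [h2] at h1
    exact h1
  intro x hx hxd
  have h1 := cl_mul hτc (hu x hx hxd)
  have h2 : (fun i => up (fun i => ρ i τ) i * (up (fun i => ρ i τ⁻¹) i * x i)) = x := by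
    funext i
    rw [← mul_assoc]
    have h3 := congrFun (up_rho_mul (ρ := ρ) τ τ⁻¹) i
    rw [mul_inv_cancel, up_rho_one] at h3
    rw [h3, one_mul]
  rw [h2] at h1
  exact h1 f hf

/-- the same over `ℚ_ℓ` -/
theorem zarF_of (hJ : ∀ i, (J i)ᵀ = J i ∨ (J i)ᵀ = -J i) (hdet : ∀ i, (J i).det ≠ 0)
    (hall : ∀ f : Pf (Lc ℓ) N, (∀ σ : Γ, evf (up fun i => ρ i σ) f = 0) → Van (up J) f) :
    ZarF ρ J := by
  rintro f ⟨Δ, hΔ, hf⟩ t ht htd
  have hev : ∀ A : ∀ i, Matrix (Fin (N i)) (Fin (N i)) ℚ_[ℓ],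
      evf (up A) (MvPolynomial.map (algebraMap ℚ_[ℓ] (Lc ℓ)) f) = algebraMap ℚ_[ℓ] (Lc ℓ) (evf A f) := by
    intro A
    unfold evf
    rw [MvPolynomial.eval_map, MvPolynomial.eval, MvPolynomial.coe_eval₂Hom,
      MvPolynomial.eval₂_comp_left (algebraMap ℚ_[ℓ] (Lc ℓ))]
    rfl
  have h1 := fin_index hJ hdet hall hΔ (f := MvPolynomial.map (algebraMap ℚ_[ℓ] (Lc ℓ)) f)
    (fun σ hσ => by rw [hev, hf σ hσ, map_zero]) (up t) (fun i => by
      rw [up_apply, up_apply, ← Matrix.transpose_map, ← Matrix.map_mul, ← Matrix.map_mul, ht i])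
    (fun i => by
      have h4 : (up t i).det = algebraMap ℚ_[ℓ] (Lc ℓ) (t i).det := by
        rw [RingHom.map_det, RingHom.mapMatrix_apply]
        rfl
      rw [h4, htd i, map_one])
  rw [hev] at h1
  exact (map_eq_zero _).1 h1

/-- the polynomial of the determinant -/
def detP (N : ι → ℕ) (i : ι) : Pf (Lc ℓ) N :=
  (Matrix.of fun a b => (MvPolynomial.X ⟨i, a, b⟩ : Pf (Lc ℓ) N)).det

theorem evf_detP (x : ∀ i, Matrix (Fin (N i)) (Fin (N i)) (Lc ℓ)) (i : ι) :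
    evf x (detP N i) = (x i).det := by
  unfold detP
  rw [RingHom.map_det, RingHom.mapMatrix_apply]
  congr 1
  ext a b
  simp [evf]

theorem det_up (A : ∀ i, Matrix (Fin (N i)) (Fin (N i)) ℚ_[ℓ]) (i : ι) :
    (up A i).det = algebraMap ℚ_[ℓ] (Lc ℓ) (A i).det := by
  rw [RingHom.map_det, RingHom.mapMatrix_apply]
  rfl

/-- **the determinants**: the vectors of the determinants of elements of the Zariski closure are those of
the elements of the image -/
theorem dets (p : ι → Prop) (hpm : ∀ i, p i → ∀ σ, (ρ i σ).det = 1 ∨ (ρ i σ).det = -1)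
    {x : ∀ i, Matrix (Fin (N i)) (Fin (N i)) (Lc ℓ)} (hx : Cl ρ ⊤ x) :
    ∃ σ, ∀ i, p i → (x i).det = algebraMap ℚ_[ℓ] (Lc ℓ) (ρ i σ).det := by
  classical
  by_contra hcon
  push Not at hcon
  have hfin : (Set.range fun (σ : Γ) (i : {i // p i}) => (ρ i.1 σ).det).Finite := by
    refine Set.Finite.subset (s := Set.pi Set.univ fun _ : {i // p i} => ({1, -1} : Set ℚ_[ℓ]))
      (Set.Finite.pi fun _ => Set.toFinite _) ?_
    rintro _ ⟨σ, rfl⟩ i _
    exact hpm i.1 i.2 σ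
  have hch : ∀ δ : {i // p i} → ℚ_[ℓ], δ ∈ hfin.toFinset →
      ∃ i : {i // p i}, (x i.1).det ≠ algebraMap ℚ_[ℓ] (Lc ℓ) (δ i) := by
    intro δ hδ
    rw [Set.Finite.mem_toFinset] at hδ
    obtain ⟨σ, rfl⟩ := hδ
    obtain ⟨i, hi, hne⟩ := hcon σ
    exact ⟨⟨i, hi⟩, hne⟩
  haveI : Nonempty {i // p i} := by
    obtain ⟨i, hi, -⟩ := hcon 1
    exact ⟨⟨i, hi⟩⟩
  choose! i hi using hch
  have h1 := hx (∏ δ ∈ hfin.toFinset, (detP N (i δ).1 -
    MvPolynomial.C (algebraMap ℚ_[ℓ] (Lc ℓ) (δ (i δ))))) ?_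
  · rw [map_prod, Finset.prod_eq_zero_iff] at h1
    obtain ⟨δ, hδ, h2⟩ := h1
    rw [map_sub, evf_detP, sub_eq_zero] at h2
    apply hi δ hδ
    rw [h2]
    exact MvPolynomial.eval_C _
  · intro σ _
    rw [map_prod]
    refine Finset.prod_eq_zero (i := fun i : {i // p i} => (ρ i.1 σ).det) ?_ ?_
    · rw [Set.Finite.mem_toFinset]
      exact ⟨σ, rfl⟩
    · rw [map_sub, evf_detP, det_up, sub_eq_zero]
      exact (MvPolynomial.eval_C _).symm

end comp

theorem mk_Lc (ℓ : ℕ) [Fact ℓ.Prime] : Cardinal.mk (Lc ℓ) = Cardinal.continuum := by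
  have h2 : Cardinal.continuum ≤ Cardinal.mk ℚ_[ℓ] :=
    continuum_le_cardinal_of_nontriviallyNormedField ℚ_[ℓ]
  have h3 : Cardinal.mk ℚ_[ℓ] ≤ Cardinal.continuum := by
    have h4 : Cardinal.mk ℚ_[ℓ] ≤ Cardinal.mk (CauSeq ℚ (padicNorm ℓ)) :=
      Cardinal.mk_le_of_surjective (f := fun x => (Quotient.mk _ x : ℚ_[ℓ])) (by
        intro y
        exact Quotient.exists_rep y)
    refine h4.trans ?_
    have h5 : Cardinal.mk (CauSeq ℚ (padicNorm ℓ)) ≤ Cardinal.mk (ℕ → ℚ) :=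
      Cardinal.mk_le_of_injective (f := fun x => (x : ℕ → ℚ)) (by
        intro x y hxy
        exact Subtype.ext hxy)
    refine h5.trans ?_
    simp
  have h6 : Cardinal.mk ℚ_[ℓ] = Cardinal.continuum := le_antisymm h3 h2
  apply le_antisymm
  · have := Algebra.IsAlgebraic.cardinalMk_le_max ℚ_[ℓ] (Lc ℓ)
    rw [h6, max_eq_left Cardinal.aleph0_le_continuum] at this
    exact this
  · rw [← h6]
    exact Cardinal.mk_le_of_injective (algebraMap ℚ_[ℓ] (Lc ℓ)).injective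

/-- the algebraic closures for two prime numbers are isomorphic -/
theorem emb2 (ℓ ℓ' : ℕ) [Fact ℓ.Prime] [Fact ℓ'.Prime] : Nonempty (Lc ℓ →+* Lc ℓ') := by
  obtain ⟨e⟩ : Nonempty (Lc ℓ ≃+* Lc ℓ') := by
    apply IsAlgClosed.ringEquiv_of_equiv_of_charZero
    · rw [mk_Lc]
      exact Cardinal.aleph0_lt_continuum
    · rw [← Cardinal.eq, mk_Lc, mk_Lc]
  exact ⟨(e : Lc ℓ →+* Lc ℓ')⟩

end

end Pool.Agent.R932.GR
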