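import Pool.Agent.R932.PO.All
import Pool.Agent.R932.OP.NtCay
import Pool.Agent.Y710.ZS.Tans

/-!
# Families of representations: from the Zariski closure to tangent vectors
-/

set_option autoImplicit false
set_option linter.unusedSectionVars false
set_option linter.style.haveILetI false

open Matrix Filter Topology
open Pool.Agent.Y142.ZO Pool.Agent.Y142.ZS
open Pool.Agent.R932.PO (JTan IsForm S_JLIE S_JLIFT skew_sp)

namespace Pool.Agent.R932.GR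

noncomputable section

section cay
variable {ℓ : ℕ} [hℓ : Fact ℓ.Prime] {N : ℕ}

theorem seq_one {a : ℕ → Matrix (Fin N) (Fin N) ℚ_[ℓ]} {X : Matrix (Fin N) (Fin N) ℚ_[ℓ]}
    (h : Tendsto (fun n : ℕ => ((ℓ : ℚ_[ℓ]) ^ n)⁻¹ • (a n - 1)) atTop (𝓝 X)) :
    Tendsto a atTop (𝓝 1) := by
  have h2 : Tendsto (fun k : ℕ => (ℓ : ℚ_[ℓ]) ^ k • (((ℓ : ℚ_[ℓ]) ^ k)⁻¹ • (a k - 1)) + 1)
      atTop (𝓝 ((0 : ℚ_[ℓ]) • X + 1)) := by
    refine Tendsto.add (Tendsto.smul ?_ h) tendsto_const_nhds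
    refine tendsto_pow_atTop_nhds_zero_of_norm_lt_one ?_
    rw [Padic.norm_p]
    exact inv_lt_one_of_one_lt₀ (by exact_mod_cast (Fact.out : ℓ.Prime).one_lt)
  rw [zero_smul, zero_add] at h2
  refine h2.congr fun k => ?_
  have hk : (ℓ : ℚ_[ℓ]) ^ k ≠ 0 := pow_ne_zero _ (by exact_mod_cast (Fact.out : ℓ.Prime).ne_zero)
  rw [smul_smul, mul_inv_cancel₀ hk, one_smul, sub_add_cancel]

/-- the group of isometries -/
def isoG (J : Matrix (Fin N) (Fin N) ℚ_[ℓ]) : Subgroup (Matrix (Fin N) (Fin N) ℚ_[ℓ])ˣ where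
  carrier := {u | (u.1)ᵀ * J * u.1 = J}
  one_mem' := by
    show (1 : Matrix (Fin N) (Fin N) ℚ_[ℓ])ᵀ * J * 1 = J
    rw [transpose_one, one_mul, mul_one]
  mul_mem' := by
    intro a b ha hb
    show (a.1 * b.1)ᵀ * J * (a.1 * b.1) = J
    have h1 : (a.1)ᵀ * J * a.1 = J := ha
    have h2 : (b.1)ᵀ * J * b.1 = J := hb
    rw [transpose_mul]
    calc (b.1)ᵀ * (a.1)ᵀ * J * (a.1 * b.1) = (b.1)ᵀ * ((a.1)ᵀ * J * a.1) * b.1 := by
          simp only [mul_assoc]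
      _ = J := by rw [h1, h2]
  inv_mem' := by
    intro a ha
    show (a⁻¹.1)ᵀ * J * a⁻¹.1 = J
    have h1 : (a.1)ᵀ * J * a.1 = J := ha
    have h2 : a.1 * a⁻¹.1 = 1 := a.mul_inv
    calc (a⁻¹.1)ᵀ * J * a⁻¹.1 = (a⁻¹.1)ᵀ * ((a.1)ᵀ * J * a.1) * a⁻¹.1 := by rw [h1]
      _ = (a.1 * a⁻¹.1)ᵀ * J * (a.1 * a⁻¹.1) := by
          rw [transpose_mul]
          simp only [mul_assoc]
      _ = J := by rw [h2, transpose_one, one_mul, mul_one]

theorem det_iso {F : Type} [Field F] {J g : Matrix (Fin N) (Fin N) F} (hd : J.det ≠ 0)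
    (hg : gᵀ * J * g = J) : g.det * g.det = 1 := by
  have h1 := congrArg Matrix.det hg
  rw [det_mul, det_mul, det_transpose] at h1
  have h2 : J.det * (g.det * g.det - 1) = 0 := by linear_combination h1
  have h3 := (mul_eq_zero.1 h2).resolve_left hd
  linear_combination h3

/-- isometries of determinant one in the direction of an element of the Lie algebra -/
theorem cay_seq {J Y : Matrix (Fin N) (Fin N) ℚ_[ℓ]} (hJ : Jᵀ = J ∨ Jᵀ = -J) (hd : J.det ≠ 0)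
    (hY : SpLie J Y) : ∃ t : ℕ → Matrix (Fin N) (Fin N) ℚ_[ℓ],
      (∀ n, (t n)ᵀ * J * t n = J) ∧ (∀ n, (t n).det = 1) ∧
      Tendsto (fun n : ℕ => ((ℓ : ℚ_[ℓ]) ^ n)⁻¹ • (t n - 1)) atTop (𝓝 Y) := by
  let ρ : isoG J →* Matrix (Fin N) (Fin N) ℚ_[ℓ] :=
    { toFun := fun u => u.1.1
      map_one' := rfl
      map_mul' := fun _ _ => rfl }
  have h1 : SpLie J ((2 : ℚ_[ℓ])⁻¹ • Y) := by
    unfold SpLie at *
    rw [transpose_smul, smul_mul_assoc, mul_smul_comm, ← smul_add, hY, smul_zero]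
  have hop : ∀ g : Matrix (Fin N) (Fin N) ℚ_[ℓ], gᵀ * J * g = J → ∃ σ, ρ σ = g := fun g hg => by
    have hu : IsUnit g.det := by
      have := det_iso hd hg
      exact IsUnit.of_mul_eq_one _ this
    exact ⟨⟨((Matrix.isUnit_iff_isUnit_det g).2 hu).unit, hg⟩, rfl⟩
  have htan : IsTangent ℓ ρ ((2 : ℚ_[ℓ])⁻¹ • Y) := by
    rcases hJ with hJ | hJ
    · exact OP.cay ℓ N (isoG J) ρ J hJ hd ⟨1, one_pos, fun g hg _ => hop g hg⟩ _
        ((skew_sp hJ).2 h1)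
    · exact Y710.ZS.t2 ℓ N (isoG J) ρ J hJ hd ⟨1, one_pos, fun g hg _ => hop g hg⟩ _ h1
  obtain ⟨σ, hσ⟩ := htan
  have hone := seq_one hσ
  refine ⟨fun n => ρ (σ n) * ρ (σ n), fun n => ?_, fun n => ?_, ?_⟩
  · have h3 : (ρ (σ n * σ n))ᵀ * J * ρ (σ n * σ n) = J := (σ n * σ n).2
    rwa [map_mul] at h3
  · rw [det_mul]
    exact det_iso hd (σ n).2
  · have h2 : Tendsto (fun n : ℕ => ((ℓ : ℚ_[ℓ]) ^ n)⁻¹ • (ρ (σ n) - 1) * (ρ (σ n) + 1)) atTop
        (𝓝 ((2 : ℚ_[ℓ])⁻¹ • Y * (1 + 1))) :=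
      Tendsto.mul hσ (hone.add tendsto_const_nhds)
    have h3 : (2 : ℚ_[ℓ])⁻¹ • Y * (1 + 1) = Y := by
      have h4 : (1 + 1 : Matrix (Fin N) (Fin N) ℚ_[ℓ]) = (2 : ℚ_[ℓ]) • 1 := by
        rw [two_smul]
      rw [h4, mul_smul_comm, mul_one, smul_smul, mul_inv_cancel₀ two_ne_zero, one_smul]
    rw [h3] at h2
    refine h2.congr fun n => ?_
    rw [smul_mul_assoc]
    congr 1
    noncomm_ring

end cay

variable {ℓ : ℕ} [hℓ : Fact ℓ.Prime] {ι : Type} [Fintype ι] [DecidableEq ι] {N : ι → ℕ}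
  {G : Type} [Group G] {ρ : ∀ i, G →* Matrix (Fin (N i)) (Fin (N i)) ℚ_[ℓ]}
  {J : ∀ i, Matrix (Fin (N i)) (Fin (N i)) ℚ_[ℓ]}

/-- polynomials in the entries of a family -/
abbrev Pf (F : Type) [Field F] {ι : Type} (N : ι → ℕ) : Type :=
  MvPolynomial (Σ i, Fin (N i) × Fin (N i)) F

/-- evaluation at a family -/
def evf {F : Type} [Field F] {ι : Type} {N : ι → ℕ} (A : ∀ i, Matrix (Fin (N i)) (Fin (N i)) F) :
    Pf F N →+* F :=
  MvPolynomial.eval fun x => A x.1 x.2.1 x.2.2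

/-- the generic family -/
def gen (ℓ : ℕ) [Fact ℓ.Prime] {ι : Type} (N : ι → ℕ) (i : ι) :
    Matrix (Fin (N i)) (Fin (N i)) (Pf ℚ_[ℓ] N) :=
  Matrix.of fun a b => MvPolynomial.X ⟨i, a, b⟩

theorem gen_map (A : ∀ i, Matrix (Fin (N i)) (Fin (N i)) ℚ_[ℓ]) (i : ι) :
    (gen ℓ N i).map (evf A) = A i := by
  ext a b
  simp [gen, evf]

theorem cst_map {I I' : Type} (A : ∀ i, Matrix (Fin (N i)) (Fin (N i)) ℚ_[ℓ])
    (B : Matrix I I' ℚ_[ℓ]) :
    (B.map (MvPolynomial.C (R := ℚ_[ℓ]) (σ := Σ i, Fin (N i) × Fin (N i)))).map (evf A) = B := by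
  ext a b
  simp [evf]

/-- the Zariski closure of the image of all subgroups of finite index contains the families of
isometries of determinant one -/
def ZarF (ρ : ∀ i, G →* Matrix (Fin (N i)) (Fin (N i)) ℚ_[ℓ])
    (J : ∀ i, Matrix (Fin (N i)) (Fin (N i)) ℚ_[ℓ]) : Prop :=
  ∀ f : Pf ℚ_[ℓ] N, (∃ Δ : Subgroup G, Δ.FiniteIndex ∧ ∀ g ∈ Δ, evf (fun i => ρ i g) f = 0) →
    ∀ t : ∀ i, Matrix (Fin (N i)) (Fin (N i)) ℚ_[ℓ], (∀ i, (t i)ᵀ * J i * t i = J i) →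
      (∀ i, (t i).det = 1) → evf t f = 0

/-- conjugation by isometries of determinant one -/
theorem conj_stable (hZ : ZarF ρ J)
    (𝔤 : Submodule ℚ_[ℓ] (∀ i, Matrix (Fin (N i)) (Fin (N i)) ℚ_[ℓ]))
    (hconj : ∀ g : G, ∀ X ∈ 𝔤, (fun i => ρ i g * X i * ρ i g⁻¹) ∈ 𝔤)
    {X : ∀ i, Matrix (Fin (N i)) (Fin (N i)) ℚ_[ℓ]} (hX : X ∈ 𝔤)
    {t : ∀ i, Matrix (Fin (N i)) (Fin (N i)) ℚ_[ℓ]} (ht : ∀ i, (t i)ᵀ * J i * t i = J i)
    (htd : ∀ i, (t i).det = 1) : (fun i => t i * X i * (t i).adjugate) ∈ 𝔤 := by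
  classical
  by_contra hno
  obtain ⟨φ, hφ0, hφ⟩ := Submodule.exists_le_ker_of_notMem hno
  have hexp : ∀ Y : ∀ i, Matrix (Fin (N i)) (Fin (N i)) ℚ_[ℓ],
      φ Y = ∑ i, ∑ a, ∑ b, Y i a b * φ (Pi.single i (Matrix.single a b 1)) := by
    intro Y
    have h1 : Y = ∑ i, ∑ a, ∑ b, Y i a b • (Pi.single i (Matrix.single a b 1) :
        ∀ i, Matrix (Fin (N i)) (Fin (N i)) ℚ_[ℓ]) := by
      have h2 : Y = ∑ i, Pi.single i (Y i) := (Finset.univ_sum_single Y).symm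
      conv_lhs => rw [h2]
      refine Finset.sum_congr rfl fun i _ => ?_
      have h3 : Y i = ∑ a, ∑ b, Y i a b • Matrix.single a b (1 : ℚ_[ℓ]) := by
        conv_lhs => rw [Matrix.matrix_eq_sum_single (Y i)]
        simp
      have h4 : ∀ Z : Matrix (Fin (N i)) (Fin (N i)) ℚ_[ℓ],
          (Pi.single i Z : ∀ i, Matrix (Fin (N i)) (Fin (N i)) ℚ_[ℓ]) =
          LinearMap.single ℚ_[ℓ] (fun i => Matrix (Fin (N i)) (Fin (N i)) ℚ_[ℓ]) i Z :=
        fun _ => rfl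
      rw [h4]
      conv_lhs => rw [h3]
      simp only [map_sum, map_smul]
      rfl
    conv_lhs => rw [h1]
    simp only [map_sum, map_smul, smul_eq_mul]
  -- the polynomial
  let M : ∀ i, Matrix (Fin (N i)) (Fin (N i)) (Pf ℚ_[ℓ] N) := fun i =>
    gen ℓ N i * (X i).map MvPolynomial.C * (gen ℓ N i).adjugate
  let δ : ι → Pf ℚ_[ℓ] N := fun i => ∏ j ∈ Finset.univ.erase i, (gen ℓ N j).det
  let f : Pf ℚ_[ℓ] N := ∑ i, ∑ a, ∑ b, δ i * M i a b *
    MvPolynomial.C (φ (Pi.single i (Matrix.single a b 1)))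
  have hM : ∀ (A : ∀ i, Matrix (Fin (N i)) (Fin (N i)) ℚ_[ℓ]) (i : ι), (M i).map (evf A) =
      A i * X i * (A i).adjugate := by
    intro A i
    show (gen ℓ N i * (X i).map MvPolynomial.C * (gen ℓ N i).adjugate).map (evf A) = _
    have h1 : ((gen ℓ N i).adjugate).map (evf A) = (A i).adjugate := by
      have h2 := RingHom.map_adjugate (evf A) (gen ℓ N i)
      rw [RingHom.mapMatrix_apply, RingHom.mapMatrix_apply, gen_map] at h2
      exact h2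
    rw [Matrix.map_mul, Matrix.map_mul, gen_map, cst_map, h1]
  have hδ : ∀ (A : ∀ i, Matrix (Fin (N i)) (Fin (N i)) ℚ_[ℓ]) (i : ι), evf A (δ i) =
      ∏ j ∈ Finset.univ.erase i, (A j).det := by
    intro A i
    show evf A (∏ j ∈ Finset.univ.erase i, (gen ℓ N j).det) = _
    rw [map_prod]
    refine Finset.prod_congr rfl fun j _ => ?_
    rw [RingHom.map_det, RingHom.mapMatrix_apply, gen_map]
  have hf : ∀ A : ∀ i, Matrix (Fin (N i)) (Fin (N i)) ℚ_[ℓ], evf A f =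
      φ (fun i => (∏ j ∈ Finset.univ.erase i, (A j).det) • (A i * X i * (A i).adjugate)) := by
    intro A
    rw [hexp]
    show evf A (∑ i, ∑ a, ∑ b, δ i * M i a b *
      MvPolynomial.C (φ (Pi.single i (Matrix.single a b 1)))) = _
    rw [map_sum]
    refine Finset.sum_congr rfl fun i _ => ?_
    rw [map_sum]
    refine Finset.sum_congr rfl fun a _ => ?_
    rw [map_sum]
    refine Finset.sum_congr rfl fun b _ => ?_
    rw [map_mul, map_mul, hδ]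
    have h1 : evf A (MvPolynomial.C (φ (Pi.single i (Matrix.single a b 1)))) =
        φ (Pi.single i (Matrix.single a b 1)) := by
      unfold evf
      rw [MvPolynomial.eval_C]
    have h2 : evf A (M i a b) = (M i).map (evf A) a b := rfl
    rw [h1, h2, hM, Matrix.smul_apply, smul_eq_mul]
  have h0 : evf t f = 0 := by
    refine hZ f ⟨⊤, inferInstance, fun g _ => ?_⟩ t ht htd
    rw [hf]
    have h1 := hφ (hconj g X hX)
    rw [LinearMap.mem_ker] at h1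
    have h2 : (fun i => (∏ j ∈ Finset.univ.erase i, (ρ j g).det) •
        (ρ i g * X i * (ρ i g).adjugate)) =
        (∏ j, (ρ j g).det) • fun i => ρ i g * X i * ρ i g⁻¹ := by
      funext i
      rw [Pi.smul_apply]
      have h3 : (ρ i g).adjugate = (ρ i g).det • ρ i g⁻¹ := by
        have h4 : ρ i g * ρ i g⁻¹ = 1 := by rw [← map_mul, mul_inv_cancel, map_one]
        calc (ρ i g).adjugate = (ρ i g).adjugate * (ρ i g * ρ i g⁻¹) := by rw [h4, mul_one]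
          _ = ((ρ i g).adjugate * ρ i g) * ρ i g⁻¹ := by rw [mul_assoc]
          _ = (ρ i g).det • ρ i g⁻¹ := by rw [adjugate_mul, smul_mul_assoc, one_mul]
      rw [h3, mul_smul_comm, smul_smul, Finset.prod_erase_mul _ _ (Finset.mem_univ i)]
    rw [h2, map_smul, h1, smul_zero]
  rw [hf] at h0
  apply hφ0
  rw [← h0]
  congr 1
  funext i
  rw [Finset.prod_eq_one fun j _ => htd j, one_smul]

/-- the adjugate of an isometry of determinant one -/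
theorem adj_iso {F : Type} [Field F] {n : ℕ} {J t : Matrix (Fin n) (Fin n) F} (hd : J.det ≠ 0)
    (ht : tᵀ * J * t = J) (htd : t.det = 1) : t.adjugate = J⁻¹ * tᵀ * J := by
  have h1 : J⁻¹ * tᵀ * J * t = 1 := by
    rw [mul_assoc, mul_assoc, ← mul_assoc tᵀ, ht, nonsing_inv_mul _ (isUnit_iff_ne_zero.2 hd)]
  have h2 : t * t.adjugate = 1 := by rw [mul_adjugate, htd, one_smul]
  calc t.adjugate = J⁻¹ * tᵀ * J * t * t.adjugate := by rw [h1, one_mul]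
    _ = J⁻¹ * tᵀ * J * (t * t.adjugate) := by rw [mul_assoc (J⁻¹ * tᵀ * J)]
    _ = J⁻¹ * tᵀ * J := by rw [h2, mul_one]

/-- the joint Lie algebra is stable under brackets with all families in the Lie algebras of the
forms -/
theorem lie_stable (hJ : ∀ i, (J i)ᵀ = J i ∨ (J i)ᵀ = -J i) (hJd : ∀ i, (J i).det ≠ 0)
    (𝔤 : Submodule ℚ_[ℓ] (∀ i, Matrix (Fin (N i)) (Fin (N i)) ℚ_[ℓ]))
    (hst : ∀ X ∈ 𝔤, ∀ t : ∀ i, Matrix (Fin (N i)) (Fin (N i)) ℚ_[ℓ],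
      (∀ i, (t i)ᵀ * J i * t i = J i) → (∀ i, (t i).det = 1) →
      (fun i => t i * X i * (t i).adjugate) ∈ 𝔤)
    {X Y : ∀ i, Matrix (Fin (N i)) (Fin (N i)) ℚ_[ℓ]} (hX : X ∈ 𝔤) (hY : ∀ i, SpLie (J i) (Y i)) :
    (fun i => Y i * X i - X i * Y i) ∈ 𝔤 := by
  choose t ht htd htl using fun i => cay_seq (hJ i) (hJd i) (hY i)
  haveI : ∀ i, T2Space (Matrix (Fin (N i)) (Fin (N i)) ℚ_[ℓ]) := fun i =>
    inferInstanceAs (T2Space (Fin (N i) → Fin (N i) → ℚ_[ℓ]))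
  have hcl : IsClosed (𝔤 : Set (∀ i, Matrix (Fin (N i)) (Fin (N i)) ℚ_[ℓ])) :=
    Submodule.closed_of_finiteDimensional 𝔤
  have hlim : Tendsto (fun k : ℕ => ((ℓ : ℚ_[ℓ]) ^ k)⁻¹ •
      ((fun i => t i k * X i * ((J i)⁻¹ * (t i k)ᵀ * J i)) - X)) atTop
      (𝓝 (fun i => Y i * X i - X i * Y i)) := by
    refine tendsto_pi_nhds.2 fun i => ?_
    have hu : IsUnit (J i).det := isUnit_iff_ne_zero.2 (hJd i)
    have h1 : Tendsto (fun k => t i k) atTop (𝓝 1) := seq_one (htl i)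
    have hct : Continuous fun A : Matrix (Fin (N i)) (Fin (N i)) ℚ_[ℓ] => (J i)⁻¹ * Aᵀ * J i :=
      (continuous_const.mul (Continuous.matrix_transpose continuous_id)).mul continuous_const
    have h3 : Tendsto (fun k => (J i)⁻¹ * (t i k)ᵀ * J i) atTop (𝓝 1) := by
      have h4 := (hct.tendsto 1).comp h1
      have h5 : (J i)⁻¹ * (1 : Matrix (Fin (N i)) (Fin (N i)) ℚ_[ℓ])ᵀ * J i = 1 := by
        rw [transpose_one, mul_one, nonsing_inv_mul _ hu]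
      rw [h5] at h4
      exact h4
    have h6 : Tendsto (fun k : ℕ => ((ℓ : ℚ_[ℓ]) ^ k)⁻¹ • ((J i)⁻¹ * (t i k)ᵀ * J i - 1)) atTop
        (𝓝 (-Y i)) := by
      have h4 := (hct.tendsto (Y i)).comp (htl i)
      have h5 : (J i)⁻¹ * (Y i)ᵀ * J i = -Y i := by
        have h7 : (Y i)ᵀ * J i = -(J i * Y i) := eq_neg_of_add_eq_zero_left (hY i)
        rw [mul_assoc, h7, mul_neg, ← mul_assoc, nonsing_inv_mul _ hu, one_mul]
      rw [h5] at h4
      refine h4.congr fun k => ?_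
      show (J i)⁻¹ * (((ℓ : ℚ_[ℓ]) ^ k)⁻¹ • (t i k - 1))ᵀ * J i = _
      rw [transpose_smul, mul_smul_comm, smul_mul_assoc, transpose_sub, transpose_one, mul_sub,
        sub_mul, mul_one, nonsing_inv_mul _ hu]
    have h7 : Tendsto (fun k : ℕ => ((ℓ : ℚ_[ℓ]) ^ k)⁻¹ • (t i k - 1) *
        (X i * ((J i)⁻¹ * (t i k)ᵀ * J i)) +
        X i * (((ℓ : ℚ_[ℓ]) ^ k)⁻¹ • ((J i)⁻¹ * (t i k)ᵀ * J i - 1))) atTop
        (𝓝 (Y i * (X i * 1) + X i * (-Y i))) :=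
      Tendsto.add (Tendsto.mul (htl i) (Tendsto.mul tendsto_const_nhds h3))
        (Tendsto.mul tendsto_const_nhds h6)
    have h8 : Y i * (X i * 1) + X i * (-Y i) = Y i * X i - X i * Y i := by
      rw [mul_one, mul_neg, ← sub_eq_add_neg]
    rw [h8] at h7
    refine h7.congr fun k => ?_
    show _ = ((ℓ : ℚ_[ℓ]) ^ k)⁻¹ • (t i k * X i * ((J i)⁻¹ * (t i k)ᵀ * J i) - X i)
    rw [smul_mul_assoc, mul_smul_comm, ← smul_add]
    congr 1
    noncomm_ring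
  refine hcl.mem_of_tendsto hlim (Eventually.of_forall fun k => ?_)
  have h9 := hst X hX (fun i => t i k) (fun i => ht i k) fun i => htd i k
  have h10 : (fun i => t i k * X i * (t i k).adjugate) =
      fun i => t i k * X i * ((J i)⁻¹ * (t i k)ᵀ * J i) := by
    funext i
    rw [adj_iso (hJd i) (ht i k) (htd i k)]
  rw [h10] at h9
  exact 𝔤.smul_mem _ (𝔤.sub_mem h9 hX)

end

end Pool.Agent.R932.GR
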